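import Pool.Agent.W_68f289_h35.TqG
import Pool.Agent.W_MP_68f289_gt.Pol

/-!
Smooth Hamiltonian paths with support in a fixed closed ball: separability.
-/

open Set Metric Topology Filter Pool.Agent.W_MP_68f289_gt Pool.Agent.W_68f289_h35
open scoped NNReal ContDiff

namespace Pool.Agent.W_68f289_h51

variable {n : ℕ} {r : ℝ}

/-- smooth Hamiltonians supported in the closed ball of radius `r`, with their flows -/
structure SP (n : ℕ) (r : ℝ) where
  H : ℝ → E n → ℝ
  ψ : ℝ → E n → E n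
  iso : HIso n H ψ
  supp : ∀ t, ∀ x, x ∉ CB n r → H t x = 0

/-- the inverse maps of the flow -/
noncomputable def SP.χ (p : SP n r) : ℝ → E n → E n := HIso.inv p.iso

/-- closeness for the Hofer norm, of the flows, and of the inverse maps -/
structure Near (δ : ℝ) (p q : SP n r) : Prop where
  hof : hofer (fun t x => p.H t x - q.H t x) ≤ δ
  fwd : ∀ t ∈ Icc (0 : ℝ) 1, ∀ x, dist (p.ψ t x) (q.ψ t x) ≤ δ
  bwd : ∀ t ∈ Icc (0 : ℝ) 1, ∀ x, dist (p.χ t x) (q.χ t x) ≤ δ

lemma SP.cont (p : SP n r) : Continuous (Function.uncurry p.H) := p.iso.smooth.continuous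

lemma SP.ψ_off (p : SP n r) (t : ℝ) {x : E n} (hx : x ∉ CB n r) : p.ψ t x = x :=
  HIso.off p.iso (isCompact_CB r) p.supp t hx

lemma SP.χ_off (p : SP n r) (t : ℝ) {x : E n} (hx : x ∉ CB n r) : p.χ t x = x :=
  OpA_inv_off p.iso (isCompact_CB r) p.supp t hx

lemma SP.ψ_χ (p : SP n r) (t : ℝ) (x : E n) : p.ψ t (p.χ t x) = x := HIso.apply_inv p.iso t x

lemma SP.χ_ψ (p : SP n r) (t : ℝ) (x : E n) : p.χ t (p.ψ t x) = x := HIso.inv_apply p.iso t x

lemma SP.ψ_cont (p : SP n r) : Continuous (Function.uncurry p.ψ) := (HIso.contDiff p.iso).continuous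

lemma SP.χ_cont (p : SP n r) : Continuous (Function.uncurry p.χ) :=
  (HIso.inv_contDiff p.iso).continuous

/-- the zero Hamiltonian -/
def SP.zero (n : ℕ) (r : ℝ) : SP n r where
  H := fun _ _ => 0
  ψ := fun _ x => x
  iso := ⟨contDiff_const, ⟨∅, isCompact_empty, empty_subset _, fun _ _ _ => rfl⟩,
    fun _ => rfl, fun t x => by
      rw [XH_zero]
      exact hasDerivAt_const _ _⟩
  supp := fun _ _ _ => rfl

/-- the data on the closed unit ball, as a continuous map -/
noncomputable def SP.J (p : SP n r) : C(Icc (0 : ℝ) 1 × Zn n, ℝ × (E n × E n)) where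
  toFun q := (p.H q.1 q.2, p.ψ q.1 q.2, p.χ q.1 q.2)
  continuous_toFun := by
    have h : Continuous fun q : Icc (0 : ℝ) 1 × Zn n => ((q.1 : ℝ), (q.2 : E n)) :=
      (continuous_subtype_val.comp continuous_fst).prodMk
        (continuous_subtype_val.comp continuous_snd)
    exact (p.cont.comp h).prodMk ((p.ψ_cont.comp h).prodMk (p.χ_cont.comp h))

lemma SP.J_apply (p : SP n r) (t : Icc (0 : ℝ) 1) (z : Zn n) :
    p.J (t, z) = (p.H t z, p.ψ t z, p.χ t z) := rfl

lemma near_of_J (hr0 : 0 ≤ r) (hr1 : r < 1) {p q : SP n r} {δ : ℝ} (hδ : 0 < δ)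
    (h : dist p.J q.J < δ / 2) : Near δ p q := by
  have hC : CB n r ⊆ CB n 1 := (CB_sub hr0 hr1).trans Bl_sub_CB
  have key : ∀ t ∈ Icc (0 : ℝ) 1, ∀ x, |p.H t x - q.H t x| ≤ δ / 2 ∧
      dist (p.ψ t x) (q.ψ t x) ≤ δ / 2 ∧ dist (p.χ t x) (q.χ t x) ≤ δ / 2 := by
    intro t ht x
    by_cases hx : x ∈ CB n 1
    · have h1 := (ContinuousMap.dist_apply_le_dist (f := p.J) (g := q.J)
        ((⟨t, ht⟩ : Icc (0 : ℝ) 1), (⟨x, hx⟩ : Zn n))).trans h.le
      rw [SP.J_apply, SP.J_apply, Prod.dist_eq, Prod.dist_eq, max_le_iff, max_le_iff,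
        Real.dist_eq] at h1
      exact h1
    · have hx' : x ∉ CB n r := fun h' => hx (hC h')
      rw [p.supp t x hx', q.supp t x hx', p.ψ_off t hx', q.ψ_off t hx', p.χ_off t hx',
        q.χ_off t hx', dist_self, sub_self, abs_zero]
      have : 0 ≤ δ / 2 := by positivity
      exact ⟨this, this, this⟩
  refine ⟨?_, fun t ht x => ?_, fun t ht x => ?_⟩
  · have h2 := hofer_le_of_abs_le (H := fun t x => p.H t x - q.H t x) (p.cont.sub q.cont)
      (isCompact_CB r) (fun t x hx => by rw [p.supp t x hx, q.supp t x hx, sub_self])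
      (M := δ / 2) (fun t ht x => (key t ht x).1)
    linarith
  · have := (key t ht x).2.1
    linarith
  · have := (key t ht x).2.2
    linarith

/-- the space of smooth Hamiltonian paths is separable -/
theorem exists_dense (hr0 : 0 ≤ r) (hr1 : r < 1) :
    ∃ d : ℕ → SP n r, ∀ (p : SP n r) (δ : ℝ), 0 < δ → ∃ k, Near δ (d k) p := by
  set S : Set C(Icc (0 : ℝ) 1 × Zn n, ℝ × (E n × E n)) := range (SP.J (n := n) (r := r)) with hS
  have hne : Nonempty S := ⟨⟨_, SP.zero n r, rfl⟩⟩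
  have hsc : SecondCountableTopology C(Icc (0 : ℝ) 1 × Zn n, ℝ × (E n × E n)) := inferInstance
  have hss : TopologicalSpace.SeparableSpace S := inferInstance
  choose d hd using fun k : ℕ => (TopologicalSpace.denseSeq S k).2
  refine ⟨d, fun p δ hδ => ?_⟩
  obtain ⟨k, hk⟩ := (TopologicalSpace.denseRange_denseSeq S).exists_dist_lt
    (⟨p.J, p, rfl⟩ : S) (show 0 < δ / 2 by positivity)
  refine ⟨k, near_of_J hr0 hr1 hδ ?_⟩
  rw [hd k, dist_comm]
  exact hk

end Pool.Agent.W_68f289_h51
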