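import Pool.Agent.W_68f289_h51.EnA

/-!
Limits of fast Cauchy sequences of smooth Hamiltonian paths.
-/

open Set Metric Topology Filter Pool.Agent.W_MP_68f289_gt Pool.Agent.W_68f289_h35
open scoped NNReal ContDiff

namespace Pool.Agent.W_68f289_h51

variable {n : ℕ} {r : ℝ}

/-- uniform limits of homeomorphisms whose inverses converge uniformly -/
lemma exists_homeo_lim {f : ℕ → (E n ≃ₜ E n)} {P Q : E n → E n}
    (hP : ∀ ε : ℝ, 0 < ε → ∃ N : ℕ, ∀ k ≥ N, ∀ x, dist (f k x) (P x) < ε)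
    (hQ : ∀ ε : ℝ, 0 < ε → ∃ N : ℕ, ∀ k ≥ N, ∀ x, dist ((f k).symm x) (Q x) < ε) :
    ∃ φ : E n ≃ₜ E n, (∀ x, φ x = P x) ∧ ∀ x, φ.symm x = Q x := by
  have cP : Continuous P := by
    refine continuous_of_uniform_approx_of_continuous fun u hu => ?_
    obtain ⟨ε, hε, hεu⟩ := Metric.mem_uniformity_dist.1 hu
    obtain ⟨N, hN⟩ := hP ε hε
    exact ⟨fun x => f N x, (f N).continuous, fun y => hεu (by rw [dist_comm]; exact hN N le_rfl y)⟩
  have cQ : Continuous Q := by
    refine continuous_of_uniform_approx_of_continuous fun u hu => ?_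
    obtain ⟨ε, hε, hεu⟩ := Metric.mem_uniformity_dist.1 hu
    obtain ⟨N, hN⟩ := hQ ε hε
    exact ⟨fun x => (f N).symm x, (f N).symm.continuous,
      fun y => hεu (by rw [dist_comm]; exact hN N le_rfl y)⟩
  have hPQ : ∀ x, P (Q x) = x := by
    intro x
    apply eq_of_forall_dist_le
    intro ε hε
    obtain ⟨δ, hδ, h1⟩ := Metric.continuousAt_iff.1 (cP.continuousAt (x := Q x)) (ε / 2)
      (half_pos hε)
    obtain ⟨N, hN⟩ := hP (ε / 2) (half_pos hε)
    obtain ⟨N', hN'⟩ := hQ δ hδ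
    have h2 := h1 (hN' (max N N') (le_max_right _ _) x)
    have h3 := hN (max N N') (le_max_left _ _) ((f (max N N')).symm x)
    rw [Homeomorph.apply_symm_apply] at h3
    have h4 := dist_triangle_left (P (Q x)) x (P ((f (max N N')).symm x))
    rw [dist_comm x (P _)] at h3
    linarith
  have hQP : ∀ x, Q (P x) = x := by
    intro x
    apply eq_of_forall_dist_le
    intro ε hε
    obtain ⟨δ, hδ, h1⟩ := Metric.continuousAt_iff.1 (cQ.continuousAt (x := P x)) (ε / 2)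
      (half_pos hε)
    obtain ⟨N, hN⟩ := hQ (ε / 2) (half_pos hε)
    obtain ⟨N', hN'⟩ := hP δ hδ
    have h2 := h1 (hN' (max N N') (le_max_right _ _) x)
    have h3 := hN (max N N') (le_max_left _ _) (f (max N N') x)
    rw [Homeomorph.symm_apply_apply] at h3
    have h4 := dist_triangle_left (Q (P x)) x (Q (f (max N N') x))
    rw [dist_comm x (Q _)] at h3
    linarith
  exact ⟨⟨⟨P, Q, hQP, hPQ⟩, cP, cQ⟩, fun _ => rfl, fun _ => rfl⟩

/-- fast Cauchy sequences -/
def Fast (a : ℕ → SP n r) : Prop := ∀ k : ℕ, Near ((1 / 2) ^ k) (a k) (a (k + 1))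

lemma hofer_tri {p q s : SP n r} :
    hofer (fun t x => p.H t x - s.H t x) ≤ hofer (fun t x => p.H t x - q.H t x) +
      hofer (fun t x => q.H t x - s.H t x) := by
  have h := hofer_add_le (H := fun t x => p.H t x - q.H t x) (H' := fun t x => q.H t x - s.H t x)
    (p.cont.sub q.cont) (q.cont.sub s.cont) (isCompact_CB r)
    (fun t x hx => by rw [p.supp t x hx, q.supp t x hx, sub_self])
    (fun t x hx => by rw [q.supp t x hx, s.supp t x hx, sub_self])
  have e : (fun (t : ℝ) (x : E n) => p.H t x - q.H t x + (q.H t x - s.H t x)) =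
      fun t x => p.H t x - s.H t x := by
    funext t x; ring
  rw [e] at h
  exact h

lemma hofer_self (p : SP n r) : hofer (fun t x => p.H t x - p.H t x) = 0 := by
  have e : (fun (t : ℝ) (x : E n) => p.H t x - p.H t x) = fun _ _ => (0 : ℝ) := by
    funext t x; ring
  rw [e, hofer_eq]
  simp [osc]

lemma hofer_symm (p q : SP n r) : hofer (fun t x => p.H t x - q.H t x) =
    hofer (fun t x => q.H t x - p.H t x) := by
  have hb : ∀ t, Bd (fun x => q.H t x - p.H t x) := fun t =>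
    (bd_of_supp q.cont (isCompact_CB r) q.supp t).sub (bd_of_supp p.cont (isCompact_CB r) p.supp t)
  have h := hofer_const_mul (H := fun t x => q.H t x - p.H t x) hb (-1)
  have e : (fun (t : ℝ) (x : E n) => -1 * (q.H t x - p.H t x)) =
      fun t x => p.H t x - q.H t x := by
    funext t x; ring
  rw [e] at h
  rw [h]
  simp

lemma Fast.hof {a : ℕ → SP n r} (ha : Fast a) (j m : ℕ) :
    hofer (fun t x => (a j).H t x - (a (j + m)).H t x) ≤ 2 * (1 / 2) ^ j - 2 * (1 / 2) ^ (j + m) := by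
  induction m with
  | zero => rw [add_zero, hofer_self, sub_self]
  | succ m ih =>
    have h1 := hofer_tri (p := a j) (q := a (j + m)) (s := a (j + (m + 1)))
    have h2 := (ha (j + m)).hof
    have e : ((1 : ℝ) / 2) ^ (j + (m + 1)) = (1 / 2) ^ (j + m) * (1 / 2) := by
      rw [← add_assoc, pow_succ]
    rw [e]
    have e2 : j + (m + 1) = j + m + 1 := rfl
    rw [e2] at h1 ⊢
    linarith

lemma Fast.cauchy {a : ℕ → SP n r} (ha : Fast a) : HCauchy fun k => (a k).H := by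
  intro ε hε
  obtain ⟨N, hN⟩ := exists_pow_lt_of_lt_one (show 0 < ε / 4 by positivity)
    (show (1 : ℝ) / 2 < 1 by norm_num)
  have key : ∀ j k : ℕ, N ≤ j → j ≤ k →
      hofer (fun t x => (a j).H t x - (a k).H t x) < ε := by
    intro j k hj hjk
    obtain ⟨m, rfl⟩ := Nat.exists_eq_add_of_le hjk
    have h1 := ha.hof j m
    have h2 : ((1 : ℝ) / 2) ^ j ≤ (1 / 2) ^ N := pow_le_pow_of_le_one (by norm_num) (by norm_num) hj
    have h3 : (0 : ℝ) < (1 / 2) ^ (j + m) := by positivity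
    linarith
  refine ⟨N, fun j k hj hk => ?_⟩
  rcases le_total j k with h | h
  · exact key j k hj h
  · have := key k j hk h
    rw [hofer_symm] at this
    exact this

/-- fast Cauchy sequences converge to topological Hamiltonian paths -/
theorem Fast.exists_path (hr0 : 0 ≤ r) (hr1 : r < 1) {a : ℕ → SP n r} (ha : Fast a) :
    ∃ Φ : Icc (0 : ℝ) 1 → (E n ≃ₜ E n),
      TPath n (CB n r) (fun k => (a k).H) (fun k => (a k).ψ) Φ ∧
      (∀ k (t : Icc (0 : ℝ) 1) x, dist ((a k).ψ t x) (Φ t x) ≤ 2 * (1 / 2) ^ k) ∧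
      ∀ k (t : Icc (0 : ℝ) 1) x, dist ((a k).χ t x) ((Φ t).symm x) ≤ 2 * (1 / 2) ^ k := by
  have h1 : ∀ (t : Icc (0 : ℝ) 1) (x : E n), ∀ k, dist ((a k).ψ t x) ((a (k + 1)).ψ t x) ≤
      1 * (1 / 2) ^ k := fun t x k => by rw [one_mul]; exact (ha k).fwd t t.2 x
  have h2 : ∀ (t : Icc (0 : ℝ) 1) (x : E n), ∀ k, dist ((a k).χ t x) ((a (k + 1)).χ t x) ≤
      1 * (1 / 2) ^ k := fun t x k => by rw [one_mul]; exact (ha k).bwd t t.2 x
  have hlt : (1 : ℝ) / 2 < 1 := by norm_num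
  choose P hP using fun (t : Icc (0 : ℝ) 1) (x : E n) =>
    cauchySeq_tendsto_of_complete (cauchySeq_of_le_geometric _ _ hlt (h1 t x))
  choose Q hQ using fun (t : Icc (0 : ℝ) 1) (x : E n) =>
    cauchySeq_tendsto_of_complete (cauchySeq_of_le_geometric _ _ hlt (h2 t x))
  have hPd : ∀ k (t : Icc (0 : ℝ) 1) x, dist ((a k).ψ t x) (P t x) ≤ 2 * (1 / 2) ^ k := by
    intro k t x
    have := dist_le_of_le_geometric_of_tendsto _ _ hlt (h1 t x) (hP t x) k
    refine this.trans (le_of_eq ?_)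
    ring
  have hQd : ∀ k (t : Icc (0 : ℝ) 1) x, dist ((a k).χ t x) (Q t x) ≤ 2 * (1 / 2) ^ k := by
    intro k t x
    have := dist_le_of_le_geometric_of_tendsto _ _ hlt (h2 t x) (hQ t x) k
    refine this.trans (le_of_eq ?_)
    ring
  have hsmall : ∀ ε : ℝ, 0 < ε → ∃ N : ℕ, ∀ k ≥ N, 2 * ((1 : ℝ) / 2) ^ k < ε := by
    intro ε hε
    obtain ⟨N, hN⟩ := exists_pow_lt_of_lt_one (show 0 < ε / 2 by positivity) hlt
    refine ⟨N, fun k hk => ?_⟩
    have h2 : ((1 : ℝ) / 2) ^ k ≤ (1 / 2) ^ N :=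
      pow_le_pow_of_le_one (by norm_num) (by norm_num) hk
    linarith
  have hex : ∀ t : Icc (0 : ℝ) 1, ∃ φ : E n ≃ₜ E n, (∀ x, φ x = P t x) ∧
      ∀ x, φ.symm x = Q t x := by
    intro t
    refine exists_homeo_lim (f := fun k => HIso.homeo (a k).iso t) (fun ε hε => ?_) fun ε hε => ?_
    · obtain ⟨N, hN⟩ := hsmall ε hε
      exact ⟨N, fun k hk x => (hPd k t x).trans_lt (hN k hk)⟩
    · obtain ⟨N, hN⟩ := hsmall ε hε
      exact ⟨N, fun k hk x => (hQd k t x).trans_lt (hN k hk)⟩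
  choose Φ hΦ hΦs using hex
  refine ⟨Φ, ⟨isCompact_CB r, CB_sub hr0 hr1, fun k => (a k).iso, fun k => (a k).supp, ha.cauchy,
    fun ε hε => ?_⟩, fun k t x => by rw [hΦ]; exact hPd k t x,
    fun k t x => by rw [hΦs]; exact hQd k t x⟩
  obtain ⟨N, hN⟩ := hsmall ε hε
  refine ⟨N, fun k hk t x => ?_⟩
  rw [hΦ]
  exact (hPd k t x).trans_lt (hN k hk)

end Pool.Agent.W_68f289_h51
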