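import Pool.Agent.W_68f289_h51.EnB

/-!
Uniform convergence of the inverse flows along a topological Hamiltonian path.
-/

open Set Metric Topology Filter Pool.Agent.W_MP_68f289_gt Pool.Agent.W_68f289_h35
open scoped NNReal ContDiff

namespace Pool.Agent.W_68f289_h51

variable {n : ℕ} {r : ℝ} {K : Set (E n)} {H : ℕ → ℝ → E n → ℝ} {ψ : ℕ → ℝ → E n → E n}
  {Φ : Icc (0 : ℝ) 1 → (E n ≃ₜ E n)}

lemma path_cont (h : TPath n K H ψ Φ) : Continuous fun q : Icc (0 : ℝ) 1 × E n => Φ q.1 q.2 := by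
  rw [Metric.continuous_iff]
  intro q ε hε
  obtain ⟨δ, hδ, h1⟩ := h.unif hε
  refine ⟨δ, hδ, fun p hp => ?_⟩
  rw [Prod.dist_eq, max_lt_iff] at hp
  exact h1 p.1 q.1 (by rw [← Real.dist_eq]; exact hp.1) p.2 q.2 hp.2

lemma norm_le_of_Bl {x : E n} (hx : x ∈ Bl n) : ‖x‖ ≤ 1 :=
  (norm_le_en x).trans (mem_Bl.1 hx).le

/-- the maps of a path are uniformly injective -/
lemma path_inj (h : TPath n K H ψ Φ) {ε : ℝ} (hε : 0 < ε) :
    ∃ δ > 0, ∀ (t : Icc (0 : ℝ) 1) (x y : E n), dist (Φ t x) (Φ t y) < δ → dist x y < ε := by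
  have hc := path_cont h
  set C : Set (E n) := closedBall 0 3 with hC
  have hCc : IsCompact C := isCompact_closedBall 0 3
  set S : Set (Icc (0 : ℝ) 1 × (E n × E n)) :=
    (univ ×ˢ (C ×ˢ C)) ∩ {q | ε ≤ dist q.2.1 q.2.2} with hS
  have hSc : IsCompact S := by
    refine (isCompact_univ.prod (hCc.prod hCc)).inter_right ?_
    exact isClosed_le continuous_const
      ((continuous_fst.comp continuous_snd).dist (continuous_snd.comp continuous_snd))
  have hF : Continuous fun q : Icc (0 : ℝ) 1 × (E n × E n) => dist (Φ q.1 q.2.1) (Φ q.1 q.2.2) :=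
    (hc.comp (continuous_fst.prodMk (continuous_fst.comp continuous_snd))).dist
      (hc.comp (continuous_fst.prodMk (continuous_snd.comp continuous_snd)))
  obtain ⟨m, hm, hmS⟩ : ∃ m > 0, ∀ q ∈ S, m ≤ dist (Φ q.1 q.2.1) (Φ q.1 q.2.2) := by
    rcases S.eq_empty_or_nonempty with hem | hne
    · exact ⟨1, one_pos, fun q hq => by rw [hem] at hq; exact hq.elim⟩
    · obtain ⟨q, hq, hmin⟩ := hSc.exists_isMinOn hne hF.continuousOn
      refine ⟨dist (Φ q.1 q.2.1) (Φ q.1 q.2.2), dist_pos.2 fun he => ?_, fun p hp => hmin hp⟩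
      have h1 := (Φ q.1).injective he
      have h2 : ε ≤ dist q.2.1 q.2.2 := hq.2
      rw [h1, dist_self] at h2
      linarith
  have hoff : ∀ t x, x ∉ C → Φ t x = x := fun t x hx => h.off t fun hxK => hx (by
    rw [hC, mem_closedBall, dist_zero_right]
    linarith [norm_le_of_Bl (h.sub hxK)])
  refine ⟨min m (min ε 1), lt_min hm (lt_min hε one_pos), fun t x y hxy => ?_⟩
  have hd1 := hxy.trans_le (min_le_left _ _)
  have hd2 := hxy.trans_le ((min_le_right _ _).trans (min_le_left _ _))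
  have hd3 := hxy.trans_le ((min_le_right _ _).trans (min_le_right _ _))
  -- points outside of the support
  have key : ∀ x y : E n, x ∉ C → dist (Φ t x) (Φ t y) < ε → dist (Φ t x) (Φ t y) < 1 →
      dist x y < ε := by
    intro x y hx h1 h2
    rw [hoff t x hx] at h1 h2
    by_cases hy : y ∈ K
    · exfalso
      have h3 : Φ t y ∈ Bl n := by
        by_contra hcon
        have h4 : Φ t y ∉ K := fun h' => hcon (h.sub h')
        have h5 := (Φ t).injective (h.off t h4)
        rw [h5] at hcon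
        exact hcon (h.sub hy)
      have h4 := norm_le_of_Bl h3
      rw [hC, mem_closedBall, dist_zero_right, not_le] at hx
      have h5 : ‖x‖ ≤ dist x (Φ t y) + ‖Φ t y‖ := by
        rw [dist_eq_norm]
        exact norm_le_norm_sub_add x (Φ t y)
      linarith
    · rw [h.off t hy] at h1
      exact h1
  by_cases hx : x ∈ C
  · by_cases hy : y ∈ C
    · by_contra hcon
      rw [not_lt] at hcon
      exact absurd (hmS (t, (x, y)) ⟨⟨trivial, hx, hy⟩, hcon⟩) (not_le.2 hd1)
    · rw [dist_comm]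
      rw [dist_comm] at hd2 hd3
      exact key y x hy hd2 hd3
  · exact key x y hx hd2 hd3

/-- the inverse flows converge uniformly -/
theorem path_inv (h : TPath n K H ψ Φ) {ε : ℝ} (hε : 0 < ε) :
    ∃ N : ℕ, ∀ k ≥ N, ∀ (t : Icc (0 : ℝ) 1) (x : E n),
      dist (HIso.inv (h.iso k) t x) ((Φ t).symm x) < ε := by
  obtain ⟨δ, hδ, h1⟩ := path_inj h hε
  obtain ⟨N, hN⟩ := h.conv δ hδ
  refine ⟨N, fun k hk t x => h1 t (HIso.inv (h.iso k) t x) ((Φ t).symm x) ?_⟩
  have h2 := hN k hk t (HIso.inv (h.iso k) t x)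
  rw [HIso.apply_inv (h.iso k)] at h2
  rw [Homeomorph.apply_symm_apply, dist_comm]
  exact h2

end Pool.Agent.W_68f289_h51
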