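import Pool.Agent.W_68f289_h51.EnC

/-!
Every topological Hamiltonian path is the limit of a fast Cauchy sequence of elements of a countable
dense set.
-/

open Set Metric Topology Filter Pool.Agent.W_MP_68f289_gt Pool.Agent.W_68f289_h35
open scoped NNReal ContDiff

namespace Pool.Agent.W_68f289_h51

variable {n : ℕ} {r : ℝ} {K : Set (E n)} {H : ℕ → ℝ → E n → ℝ} {ψ : ℕ → ℝ → E n → E n}
  {Φ : Icc (0 : ℝ) 1 → (E n ≃ₜ E n)}

/-- dense sequences of smooth paths -/
def Dns (d : ℕ → SP n r) : Prop := ∀ (p : SP n r) (δ : ℝ), 0 < δ → ∃ k, Near δ (d k) p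

lemma hofer_tri0 (p q : SP n r) : hofer p.H ≤ hofer (fun t x => p.H t x - q.H t x) +
    hofer q.H := by
  have h := hofer_add_le (H := fun t x => p.H t x - q.H t x) (H' := q.H)
    (p.cont.sub q.cont) q.cont (isCompact_CB r)
    (fun t x hx => by rw [p.supp t x hx, q.supp t x hx, sub_self]) q.supp
  have e : (fun (t : ℝ) (x : E n) => p.H t x - q.H t x + q.H t x) = p.H := by
    funext t x; ring
  rw [e] at h
  exact h

/-- the smooth paths of a topological Hamiltonian path -/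
def toSP (h : TPath n (CB n r) H ψ Φ) (k : ℕ) : SP n r := ⟨H k, ψ k, h.iso k, h.supp k⟩

theorem exists_fast {d : ℕ → SP n r} (hd : Dns d) (h : TPath n (CB n r) H ψ Φ) {δ : ℝ}
    (hδ : 0 < δ) : ∃ a : ℕ → ℕ, Fast (fun k => d (a k)) ∧
      (∀ k (t : Icc (0 : ℝ) 1) x, dist ((d (a k)).ψ t x) (Φ t x) ≤ (1 / 2) ^ k) ∧
      ((∀ k, hofer (H k) ≤ δ) → ∀ k, hofer (d (a k)).H ≤ 2 * δ) ∧
      ((∀ t x, dist (Φ t x) x ≤ δ) → ∀ k, ∀ t ∈ Icc (0 : ℝ) 1, ∀ x,
        dist ((d (a k)).ψ t x) x ≤ 2 * δ) := by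
  set η : ℕ → ℝ := fun k => min ((1 / 2) ^ k / 8) (δ / 2) with hη
  have hη0 : ∀ k, 0 < η k := fun k => lt_min (by positivity) (by positivity)
  have hη1 : ∀ k, η k ≤ (1 / 2) ^ k / 8 := fun k => min_le_left _ _
  have hη2 : ∀ k, η k ≤ δ / 2 := fun k => min_le_right _ _
  have hηs : ∀ k, η (k + 1) ≤ (1 / 2) ^ k / 8 := fun k => (hη1 (k + 1)).trans (by
    rw [pow_succ]
    have : (0 : ℝ) < (1 / 2) ^ k := by positivity
    linarith)
  choose N1 hN1 using fun k => h.cauchy (η k) (hη0 k)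
  choose N2 hN2 using fun k => h.conv (η k) (hη0 k)
  choose N3 hN3 using fun k => path_inv h (hη0 k)
  set J : ℕ → ℕ := fun k => ∑ i ∈ Finset.range (k + 1), (N1 i + N2 i + N3 i) with hJ
  have hJk : ∀ k, N1 k + N2 k + N3 k ≤ J k := fun k =>
    Finset.single_le_sum (f := fun i => N1 i + N2 i + N3 i) (fun _ _ => Nat.zero_le _)
      (Finset.self_mem_range_succ k)
  have hJs : ∀ k, J k ≤ J (k + 1) := fun k => by
    simp only [hJ]
    rw [Finset.sum_range_succ _ (k + 1)]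
    exact Nat.le_add_right _ _
  set p : ℕ → SP n r := fun k => toSP h (J k) with hp
  choose a ha using fun k => hd (p k) (η k) (hη0 k)
  -- estimates
  have e1 : ∀ k, hofer (fun t x => (p k).H t x - (p (k + 1)).H t x) ≤ η k := fun k =>
    (hN1 k (J k) (J (k + 1)) (by have := hJk k; omega) (by have := hJk k; have := hJs k; omega)).le
  have e2 : ∀ k (t : Icc (0 : ℝ) 1) x, dist ((p k).ψ t x) (Φ t x) ≤ η k := fun k t x =>
    (hN2 k (J k) (by have := hJk k; omega) t x).le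
  have e3 : ∀ k (t : Icc (0 : ℝ) 1) x, dist ((p k).χ t x) ((Φ t).symm x) ≤ η k := fun k t x =>
    (hN3 k (J k) (by have := hJk k; omega) t x).le
  have e4 : ∀ k (t : Icc (0 : ℝ) 1) x, dist ((d (a k)).ψ t x) (Φ t x) ≤ 2 * η k := by
    intro k t x
    have h1 := (ha k).fwd t t.2 x
    have h2 := e2 k t x
    have h3 := dist_triangle ((d (a k)).ψ t x) ((p k).ψ t x) (Φ t x)
    linarith
  have e5 : ∀ k (t : Icc (0 : ℝ) 1) x, dist ((d (a k)).χ t x) ((Φ t).symm x) ≤ 2 * η k := by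
    intro k t x
    have h1 := (ha k).bwd t t.2 x
    have h2 := e3 k t x
    have h3 := dist_triangle ((d (a k)).χ t x) ((p k).χ t x) ((Φ t).symm x)
    linarith
  refine ⟨a, fun k => ⟨?_, fun t ht x => ?_, fun t ht x => ?_⟩, fun k t x => ?_, fun hH k => ?_,
    fun hΦ k t ht x => ?_⟩
  · have h1 := hofer_tri (p := d (a k)) (q := p k) (s := d (a (k + 1)))
    have h2 := hofer_tri (p := p k) (q := p (k + 1)) (s := d (a (k + 1)))
    have h3 := (ha k).hof
    have h4 := (ha (k + 1)).hof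
    rw [hofer_symm] at h4
    have h5 := e1 k
    have h6 := hη1 k
    have h7 := hηs k
    have h8 : (0 : ℝ) < (1 / 2) ^ k := by positivity
    linarith
  · have h1 := e4 k ⟨t, ht⟩ x
    have h2 := e4 (k + 1) ⟨t, ht⟩ x
    have h3 := dist_triangle_right ((d (a k)).ψ t x) ((d (a (k + 1))).ψ t x) (Φ ⟨t, ht⟩ x)
    have h6 := hη1 k
    have h7 := hηs k
    have h8 : (0 : ℝ) < (1 / 2) ^ k := by positivity
    simp only at h1 h2
    linarith
  · have h1 := e5 k ⟨t, ht⟩ x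
    have h2 := e5 (k + 1) ⟨t, ht⟩ x
    have h3 := dist_triangle_right ((d (a k)).χ t x) ((d (a (k + 1))).χ t x)
      ((Φ ⟨t, ht⟩).symm x)
    have h6 := hη1 k
    have h7 := hηs k
    have h8 : (0 : ℝ) < (1 / 2) ^ k := by positivity
    simp only at h1 h2
    linarith
  · have h1 := e4 k t x
    have h6 := hη1 k
    have h8 : (0 : ℝ) < (1 / 2) ^ k := by positivity
    linarith
  · have h1 := hofer_tri0 (d (a k)) (p k)
    have h2 := (ha k).hof
    have h3 : hofer (p k).H ≤ δ := hH (J k)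
    have h4 := hη2 k
    linarith
  · have h1 := e4 k ⟨t, ht⟩ x
    have h2 := hΦ ⟨t, ht⟩ x
    have h3 := dist_triangle ((d (a k)).ψ t x) (Φ ⟨t, ht⟩ x) x
    have h4 := hη2 k
    simp only at h1
    linarith

end Pool.Agent.W_68f289_h51
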