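import Pool.Agent.W_68f289_h51.EnD

/-!
The set of end points of topological Hamiltonian paths of small energy is the continuous image of a
Polish space.
-/

open Set Metric Topology Filter Pool.Agent.W_MP_68f289_gt Pool.Agent.W_68f289_h35
open scoped NNReal ContDiff

namespace Pool.Agent.W_68f289_h51

variable {n : ℕ} {r : ℝ} {K : Set (E n)} {H : ℕ → ℝ → E n → ℝ} {ψ : ℕ → ℝ → E n → E n}
  {Φ : Icc (0 : ℝ) 1 → (E n ≃ₜ E n)}

/-- fast Cauchy sequences with bounds -/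
def FS (d : ℕ → SP n r) (δ : ℝ) : Set (ℕ → ℕ) :=
  {a | Fast (fun k => d (a k)) ∧ (∀ k, hofer (d (a k)).H ≤ δ) ∧
    ∀ k, ∀ t ∈ Icc (0 : ℝ) 1, ∀ x, dist ((d (a k)).ψ t x) x ≤ δ}

lemma closed_FS (d : ℕ → SP n r) (δ : ℝ) : IsClosed (FS d δ) := by
  have e : FS d δ = (⋂ k : ℕ, (fun a : ℕ → ℕ => (a k, a (k + 1))) ⁻¹'
      {q : ℕ × ℕ | Near ((1 / 2) ^ k) (d q.1) (d q.2)}) ∩
      ((⋂ k : ℕ, (fun a : ℕ → ℕ => a k) ⁻¹' {i : ℕ | hofer (d i).H ≤ δ}) ∩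
      ⋂ k : ℕ, (fun a : ℕ → ℕ => a k) ⁻¹'
        {i : ℕ | ∀ t ∈ Icc (0 : ℝ) 1, ∀ x, dist ((d i).ψ t x) x ≤ δ}) := by
    ext a
    simp only [FS, Fast, mem_setOf_eq, mem_inter_iff, mem_iInter, mem_preimage]
  rw [e]
  refine IsClosed.inter (isClosed_iInter fun k => ?_) (IsClosed.inter
    (isClosed_iInter fun k => ?_) (isClosed_iInter fun k => ?_))
  · exact (isClosed_discrete _).preimage ((continuous_apply k).prodMk (continuous_apply (k + 1)))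
  · exact (isClosed_discrete _).preimage (continuous_apply k)
  · exact (isClosed_discrete _).preimage (continuous_apply k)

instance instPolishFS (d : ℕ → SP n r) (δ : ℝ) : PolishSpace (FS d δ) :=
  (closed_FS d δ).polishSpace

/-- the limit of a fast sequence -/
noncomputable def limP (hr0 : 0 ≤ r) (hr1 : r < 1) {d : ℕ → SP n r} {δ : ℝ} (a : FS d δ) :
    Icc (0 : ℝ) 1 → (E n ≃ₜ E n) := (a.2.1.exists_path hr0 hr1).choose

lemma limP_path (hr0 : 0 ≤ r) (hr1 : r < 1) {d : ℕ → SP n r} {δ : ℝ} (a : FS d δ) :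
    TPath n (CB n r) (fun k => (d (a.1 k)).H) (fun k => (d (a.1 k)).ψ) (limP hr0 hr1 a) :=
  (a.2.1.exists_path hr0 hr1).choose_spec.1

lemma limP_fwd (hr0 : 0 ≤ r) (hr1 : r < 1) {d : ℕ → SP n r} {δ : ℝ} (a : FS d δ) (k : ℕ)
    (t : Icc (0 : ℝ) 1) (x : E n) :
    dist ((d (a.1 k)).ψ t x) (limP hr0 hr1 a t x) ≤ 2 * (1 / 2) ^ k :=
  (a.2.1.exists_path hr0 hr1).choose_spec.2.1 k t x

lemma limP_bwd (hr0 : 0 ≤ r) (hr1 : r < 1) {d : ℕ → SP n r} {δ : ℝ} (a : FS d δ) (k : ℕ)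
    (t : Icc (0 : ℝ) 1) (x : E n) :
    dist ((d (a.1 k)).χ t x) ((limP hr0 hr1 a t).symm x) ≤ 2 * (1 / 2) ^ k :=
  (a.2.1.exists_path hr0 hr1).choose_spec.2.2 k t x

lemma exists_small_pow {ε : ℝ} (hε : 0 < ε) : ∃ k : ℕ, 4 * ((1 : ℝ) / 2) ^ k < ε := by
  obtain ⟨N, hN⟩ := exists_pow_lt_of_lt_one (show 0 < ε / 4 by positivity)
    (show (1 : ℝ) / 2 < 1 by norm_num)
  exact ⟨N, by linarith⟩

lemma limP_dist (hr0 : 0 ≤ r) (hr1 : r < 1) {d : ℕ → SP n r} {δ : ℝ} (a : FS d δ)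
    (t : Icc (0 : ℝ) 1) (x : E n) : dist (limP hr0 hr1 a t x) x ≤ δ := by
  apply le_of_forall_pos_le_add
  intro ε hε
  obtain ⟨k, hk⟩ := exists_small_pow hε
  have h1 := limP_fwd hr0 hr1 a k t x
  have h2 := a.2.2.2 k t t.2 x
  have h3 := dist_triangle_left (limP hr0 hr1 a t x) x ((d (a.1 k)).ψ t x)
  have h4 : (0 : ℝ) < (1 / 2) ^ k := by positivity
  linarith

/-- the end point -/
noncomputable def ep (hr0 : 0 ≤ r) (hr1 : r < 1) {d : ℕ → SP n r} {δ : ℝ} (a : FS d δ) : G n :=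
  ⟨endp (limP hr0 hr1 a), Hameo_le (limP_path hr0 hr1 a).endp_mem⟩

lemma ep_smul (hr0 : 0 ≤ r) (hr1 : r < 1) {d : ℕ → SP n r} {δ : ℝ} (a : FS d δ) (x : E n) :
    ep hr0 hr1 a • x = limP hr0 hr1 a ⟨1, by simp⟩ x := rfl

lemma ep_inv_smul (hr0 : 0 ≤ r) (hr1 : r < 1) {d : ℕ → SP n r} {δ : ℝ} (a : FS d δ) (x : E n) :
    (ep hr0 hr1 a)⁻¹ • x = (limP hr0 hr1 a ⟨1, by simp⟩).symm x := rfl

theorem ep_cont (hr0 : 0 ≤ r) (hr1 : r < 1) (d : ℕ → SP n r) (δ : ℝ) :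
    Continuous fun a : FS d δ => res (ep hr0 hr1 a) := by
  have hnb : ∀ (a : FS d δ) (k : ℕ), ∀ᶠ b : FS d δ in 𝓝 a, b.1 k = a.1 k := by
    intro a k
    have h1 : Continuous fun b : FS d δ => b.1 k :=
      (continuous_apply k).comp continuous_subtype_val
    have h2 : ({a.1 k} : Set ℕ) ∈ 𝓝 (a.1 k) := by simp
    exact h1.continuousAt.eventually h2
  have hfst : Continuous fun a : FS d δ => (res (ep hr0 hr1 a)).1.1 := by
    rw [Metric.continuous_iff']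
    intro a ε hε
    obtain ⟨k, hk⟩ := exists_small_pow hε
    filter_upwards [hnb a k] with b hb
    refine lt_of_le_of_lt ((ContinuousMap.dist_le (by positivity)).2 fun z => ?_) hk
    rw [Subtype.dist_eq, res_fst, res_fst, ep_smul, ep_smul]
    have h1 := limP_fwd hr0 hr1 a k ⟨1, by simp⟩ z
    have h2 := limP_fwd hr0 hr1 b k ⟨1, by simp⟩ z
    rw [hb] at h2
    have h3 := dist_triangle_left (limP hr0 hr1 b ⟨1, by simp⟩ z) (limP hr0 hr1 a ⟨1, by simp⟩ z)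
      ((d (a.1 k)).ψ (⟨1, by simp⟩ : Icc (0 : ℝ) 1) z)
    linarith
  have hsnd : Continuous fun a : FS d δ => (res (ep hr0 hr1 a)).1.2 := by
    rw [Metric.continuous_iff']
    intro a ε hε
    obtain ⟨k, hk⟩ := exists_small_pow hε
    filter_upwards [hnb a k] with b hb
    refine lt_of_le_of_lt ((ContinuousMap.dist_le (by positivity)).2 fun z => ?_) hk
    rw [Subtype.dist_eq, res_snd, res_snd, ep_inv_smul, ep_inv_smul]
    have h1 := limP_bwd hr0 hr1 a k ⟨1, by simp⟩ z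
    have h2 := limP_bwd hr0 hr1 b k ⟨1, by simp⟩ z
    rw [hb] at h2
    have h3 := dist_triangle_left ((limP hr0 hr1 b ⟨1, by simp⟩).symm z)
      ((limP hr0 hr1 a ⟨1, by simp⟩).symm z)
      ((d (a.1 k)).χ (⟨1, by simp⟩ : Icc (0 : ℝ) 1) z)
    linarith
  exact continuous_induced_rng.2 (hfst.prodMk hsnd)

/-- end points of paths of small energy -/
theorem exists_ep (hr0 : 0 ≤ r) (hr1 : r < 1) {d : ℕ → SP n r} (hd : Dns d)
    (h : TPath n (CB n r) H ψ Φ) {δ : ℝ} (hδ : 0 < δ) (hH : ∀ k, hofer (H k) ≤ δ)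
    (hΦ : ∀ t x, dist (Φ t x) x ≤ δ) :
    ∃ a : FS d (2 * δ), (ep hr0 hr1 a : E n ≃ₜ E n) = endp Φ := by
  obtain ⟨a, h1, h2, h3, h4⟩ := exists_fast hd h hδ
  refine ⟨⟨a, h1, h3 hH, h4 hΦ⟩, ?_⟩
  ext x : 1
  apply eq_of_forall_dist_le
  intro ε hε
  obtain ⟨k, hk⟩ := exists_small_pow hε
  have h5 := limP_fwd hr0 hr1 (⟨a, h1, h3 hH, h4 hΦ⟩ : FS d (2 * δ)) k ⟨1, by simp⟩ x
  have h6 := h2 k ⟨1, by simp⟩ x
  have h7 := dist_triangle_left (limP hr0 hr1 (⟨a, h1, h3 hH, h4 hΦ⟩ : FS d (2 * δ))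
    ⟨1, by simp⟩ x) (Φ ⟨1, by simp⟩ x) ((d (a k)).ψ (⟨1, by simp⟩ : Icc (0 : ℝ) 1) x)
  have h8 : (0 : ℝ) < (1 / 2) ^ k := by positivity
  change dist (limP hr0 hr1 (⟨a, h1, h3 hH, h4 hΦ⟩ : FS d (2 * δ)) ⟨1, by simp⟩ x)
    (Φ ⟨1, by simp⟩ x) ≤ ε
  simp only at h5
  linarith

end Pool.Agent.W_68f289_h51
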