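import Pool.Agent.W_68f289_h51.EnE

/-!
The end points of topological Hamiltonian paths are covered by countably many translates of the set
of end points of topological Hamiltonian paths of small energy.
-/

open Set Metric Topology Filter Pool.Agent.W_MP_68f289_gt Pool.Agent.W_68f289_h35
open scoped NNReal ContDiff

namespace Pool.Agent.W_68f289_h51

variable {n : ℕ} {r : ℝ} {K : Set (E n)} {H : ℕ → ℝ → E n → ℝ} {ψ : ℕ → ℝ → E n → E n}
  {Φ : Icc (0 : ℝ) 1 → (E n ≃ₜ E n)}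

/-- the flow maps as homeomorphisms -/
noncomputable def SP.h (p : SP n r) (t : ℝ) : E n ≃ₜ E n := HIso.homeo p.iso t

lemma SP.h_apply (p : SP n r) (t : ℝ) (x : E n) : p.h t x = p.ψ t x := rfl

lemma SP.h_inv_apply (p : SP n r) (t : ℝ) (x : E n) : (p.h t)⁻¹ x = p.χ t x := rfl

/-- the time-one map -/
noncomputable def SP.bs (p : SP n r) : G n :=
  ⟨p.h 1, big_HamBar.ham _ ⟨p.H, p.ψ, p.iso, fun _ => rfl⟩⟩

/-- the path `t ↦ χ t ∘ Φ t`, for a smooth path with inverse maps `χ t` -/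
theorem diff_path (hr0 : 0 ≤ r) (hr1 : r < 1) (p : SP n r) (h : TPath n (CB n r) H ψ Φ) :
    TPath n (CB n r) (fun k t x => H k t (p.ψ t x) - p.H t (p.ψ t x))
      (fun k t x => p.χ t (ψ k t x)) (fun t => (p.h t)⁻¹ * Φ t) := by
  have hsurj : ∀ t, Function.Surjective (p.ψ t) := fun t x => ⟨p.χ t x, p.ψ_χ t x⟩
  refine ⟨isCompact_CB r, CB_sub hr0 hr1, fun k => HIso.diff p.iso (h.iso k), fun k t x hx => ?_,
    fun ε hε => ?_, fun ε hε => ?_⟩
  · rw [p.ψ_off t hx, h.supp k t x hx, p.supp t x hx, sub_self]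
  · obtain ⟨N, hN⟩ := h.cauchy ε hε
    refine ⟨N, fun j k hj hk => ?_⟩
    have e : (fun (t : ℝ) (x : E n) => H j t (p.ψ t x) - p.H t (p.ψ t x) -
        (H k t (p.ψ t x) - p.H t (p.ψ t x))) =
        fun t x => (fun (t : ℝ) (x : E n) => H j t x - H k t x) t (p.ψ t x) := by
      funext t x
      ring
    rw [e, hofer_comp (fun (t : ℝ) (x : E n) => H j t x - H k t x) hsurj]
    exact hN j k hj hk
  · obtain ⟨δ, hδ, h1⟩ := TqA_unif (isCompact_CB r) p.χ_cont (fun t x hx => p.χ_off t hx) hε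
    obtain ⟨N, hN⟩ := h.conv δ hδ
    refine ⟨N, fun k hk t x => ?_⟩
    exact h1 t t (by simpa using hδ) _ _ (hN k hk t x)

theorem cover (hr0 : 0 ≤ r) (hr1 : r < 1) {d : ℕ → SP n r} (hd : Dns d)
    (h : TPath n (CB n r) H ψ Φ) {δ : ℝ} (hδ : 0 < δ) :
    ∃ (i : ℕ) (a : FS d (2 * δ)),
      endp Φ = ((d i).bs : E n ≃ₜ E n) * (ep hr0 hr1 a : E n ≃ₜ E n) := by
  obtain ⟨N1, hN1⟩ := h.cauchy (δ / 4) (by positivity)
  obtain ⟨N3, hN3⟩ := path_inv h (show 0 < δ / 4 by positivity)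
  set J := max N1 N3 with hJ
  obtain ⟨i, hi⟩ := hd (toSP h J) (δ / 4) (by positivity)
  -- shift of the sequence
  have h' : TPath n (CB n r) (fun k => H (J + k)) (fun k => ψ (J + k)) Φ := by
    refine ⟨h.comp, h.sub, fun k => h.iso _, fun k => h.supp _, fun ε hε => ?_, fun ε hε => ?_⟩
    · obtain ⟨N, hN⟩ := h.cauchy ε hε
      exact ⟨N, fun j k hj hk => hN _ _ (hj.trans (Nat.le_add_left _ _))
        (hk.trans (Nat.le_add_left _ _))⟩
    · obtain ⟨N, hN⟩ := h.conv ε hε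
      exact ⟨N, fun k hk => hN _ (hk.trans (Nat.le_add_left _ _))⟩
  have h2 := diff_path hr0 hr1 (d i) h'
  have hsurj : ∀ t, Function.Surjective ((d i).ψ t) := fun t x => ⟨(d i).χ t x, (d i).ψ_χ t x⟩
  have hA : ∀ k, hofer (fun (t : ℝ) (x : E n) => H (J + k) t ((d i).ψ t x) -
      (d i).H t ((d i).ψ t x)) ≤ δ := by
    intro k
    have e : (fun (t : ℝ) (x : E n) => H (J + k) t ((d i).ψ t x) - (d i).H t ((d i).ψ t x)) =
        fun t x => (fun (t : ℝ) (x : E n) => H (J + k) t x - (d i).H t x) t ((d i).ψ t x) := rfl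
    rw [e, hofer_comp (fun (t : ℝ) (x : E n) => H (J + k) t x - (d i).H t x) hsurj]
    have h3 := hofer_tri (p := toSP h (J + k)) (q := toSP h J) (s := d i)
    have h4 := hi.hof
    rw [hofer_symm] at h4
    have h5 := hN1 (J + k) J (by omega) (by omega)
    have e3 : hofer (fun t x => (toSP h (J + k)).H t x - (d i).H t x) =
      hofer (fun t x => H (J + k) t x - (d i).H t x) := rfl
    have e5 : hofer (fun t x => (toSP h (J + k)).H t x - (toSP h J).H t x) =
      hofer (fun t x => H (J + k) t x - H J t x) := rfl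
    rw [e3, e5] at h3
    linarith
  have hB : ∀ (t : Icc (0 : ℝ) 1) (x : E n), dist ((((d i).h t)⁻¹ * Φ t : E n ≃ₜ E n) x) x ≤ δ := by
    intro t x
    change dist ((d i).χ t (Φ t x)) x ≤ δ
    have h3 := hi.bwd t t.2 (Φ t x)
    have h4 := hN3 J (le_max_right _ _) t (Φ t x)
    rw [Homeomorph.symm_apply_apply] at h4
    have h5 := dist_triangle ((d i).χ t (Φ t x)) ((toSP h J).χ t (Φ t x)) x
    have e : (toSP h J).χ t (Φ t x) = HIso.inv (h.iso J) t (Φ t x) := rfl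
    rw [e] at h3 h5
    linarith
  obtain ⟨a, ha⟩ := exists_ep hr0 hr1 hd h2 hδ hA hB
  refine ⟨i, a, ?_⟩
  rw [ha]
  change endp Φ = (d i).h 1 * (((d i).h 1)⁻¹ * endp Φ)
  rw [mul_inv_cancel_left]

end Pool.Agent.W_68f289_h51
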