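import Pool.Agent.W_68f289_h51.EnF
import Pool.Agent.W_MP_68f289_gt.Crit

/-!
If the hameomorphisms have countable index in the group of Hamiltonian homeomorphisms, then small
Hamiltonian homeomorphisms are quotients of end points of paths of small energy.
-/

open Set Metric Topology Filter Pool.Agent.W_MP_68f289_gt Pool.Agent.W_68f289_h35
open scoped NNReal ContDiff

namespace Pool.Agent.W_68f289_h51

variable {n : ℕ} {r : ℝ} {K : Set (E n)} {H : ℕ → ℝ → E n → ℝ} {ψ : ℕ → ℝ → E n → E n}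
  {Φ : Icc (0 : ℝ) 1 → (E n ≃ₜ E n)}

/-- Let `H` be a closed subgroup of a Polish group `Γ`, and let `B` be a non-meagre subset of `H`
which is covered by countably many translates of a continuous image `A` of a Polish space. Then a
neighbourhood of the identity in `H` consists of elements of `A⁻¹ A`. -/
theorem baire_part {Γ P : Type*} [Group Γ] [TopologicalSpace Γ] [IsTopologicalGroup Γ]
    [PolishSpace Γ] [TopologicalSpace P] [PolishSpace P] {s : P → Γ} (hs : Continuous s)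
    (H : Subgroup Γ) (hH : IsClosed (H : Set Γ)) (B : Set H) (hB : ¬ IsMeagre B) (T : Set Γ)
    (hT : T.Countable) (hcov : ∀ h ∈ B, ∃ t ∈ T, ∃ p : P, (h : Γ) = t * s p) :
    ∃ U ∈ 𝓝 (1 : Γ), ∀ u ∈ U, u ∈ H → ∃ p q : P, u = (s p)⁻¹ * s q := by
  have hHp : PolishSpace H := hH.polishSpace
  have hHb : BaireSpace H := by
    let _ := TopologicalSpace.upgradeIsCompletelyMetrizable H
    infer_instance
  have hTc : Countable T := hT.to_subtype
  set A : T → Set H := fun j => {h : H | ∃ p : P, (h : Γ) = (j : Γ) * s p} with hA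
  have hex : ∃ j, ¬ IsMeagre (A j) := by
    by_contra hcon
    push Not at hcon
    refine hB ((isMeagre_iUnion hcon).mono fun h hh => ?_)
    obtain ⟨t, ht, p, hp⟩ := hcov h hh
    rw [mem_iUnion]
    exact ⟨⟨t, ht⟩, p, hp⟩
  obtain ⟨t, hj⟩ := hex
  set Q : Set P := {p | (t : Γ) * s p ∈ H} with hQ
  have hQc : IsClosed Q := hH.preimage (continuous_const.mul hs)
  have hQp : PolishSpace Q := hQc.polishSpace
  set f : Q → H := fun p => (⟨(t : Γ) * s p.1, p.2⟩ : H)⁻¹ with hf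
  have hfc : Continuous f :=
    (((continuous_const.mul (hs.comp continuous_subtype_val)).subtype_mk _)).inv
  have hfr : range f = (fun h : H => h⁻¹) '' A t := by
    ext h
    constructor
    · rintro ⟨p, rfl⟩
      exact ⟨⟨(t : Γ) * s p.1, p.2⟩, ⟨p.1, rfl⟩, rfl⟩
    · rintro ⟨h', ⟨p, hp⟩, rfl⟩
      refine ⟨⟨p, ?_⟩, ?_⟩
      · change (t : Γ) * s p ∈ H
        rw [← hp]; exact h'.2
      · exact congrArg (·⁻¹) (Subtype.ext hp.symm)
  obtain ⟨U, hU, hUw⟩ := pettis hfc (by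
    rw [hfr]
    intro hcon
    apply hj
    have h6 : (fun h : H => h⁻¹) '' ((fun h : H => h⁻¹) '' A t) = A t := by
      rw [image_image]
      simp
    rw [← h6]
    exact (Homeomorph.inv H).isInducing.isMeagre_image hcon)
  obtain ⟨V, hV, hVU⟩ := mem_nhds_induced (Subtype.val : H → Γ) 1 U |>.1 hU
  refine ⟨V, hV, fun u hu huH => ?_⟩
  obtain ⟨p, q, hpq⟩ := hUw ⟨u, huH⟩ (hVU hu)
  have hpq' : u = ((t : Γ) * s p.1)⁻¹ * (((t : Γ) * s q.1)⁻¹)⁻¹ := congrArg Subtype.val hpq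
  refine ⟨p.1, q.1, ?_⟩
  rw [hpq']
  group

/-- a closed subgroup is not a countable union of meagre sets -/
lemma exists_nonmeagre {Γ ι : Type*} [Group Γ] [TopologicalSpace Γ]
    [PolishSpace Γ] [Countable ι] (H : Subgroup Γ) (hH : IsClosed (H : Set Γ)) (B : ι → Set H)
    (hcov : ∀ h : H, ∃ i, h ∈ B i) : ∃ i, ¬ IsMeagre (B i) := by
  have hHp : PolishSpace H := hH.polishSpace
  have hHb : BaireSpace H := by
    let _ := TopologicalSpace.upgradeIsCompletelyMetrizable H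
    infer_instance
  by_contra hcon
  push Not at hcon
  have h1 : IsMeagre (⋃ j, B j) := isMeagre_iUnion hcon
  have h2 : (⋃ j, B j) = univ := by
    rw [eq_univ_iff_forall]
    intro h
    rw [mem_iUnion]
    exact hcov h
  rw [h2] at h1
  have : (∅ : Set H).Nonempty := by
    have h5 : Dense (univ : Set H)ᶜ := dense_of_mem_residual h1
    rw [compl_univ] at h5
    exact h5.nonempty
  exact this.ne_empty rfl

lemma TPath.mono {K' : Set (E n)} (h : TPath n K H ψ Φ) (hc : IsCompact K') (hB : K' ⊆ Bl n)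
    (hK : K ⊆ K') : TPath n K' H ψ Φ :=
  ⟨hc, hB, h.iso, fun k t x hx => h.supp k t x fun h' => hx (hK h'), h.cauchy, h.conv⟩

/-- the hameomorphisms inside of the group of Hamiltonian homeomorphisms -/
def HS (n : ℕ) : Subgroup (G n) := (Hameo n).subgroupOf (HamBar n)

lemma exists_Rm_ge {K : Set (E n)} (hK : IsCompact K) (hKB : K ⊆ Bl n) :
    ∃ m : ℕ, K ⊆ CB n (Rm m) := by
  obtain ⟨r, hr0, hr1, hKr⟩ := exists_CB hK hKB
  obtain ⟨m, hm⟩ := exists_nat_gt (1 / (1 - r))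
  refine ⟨m, hKr.trans (CB_mono hr0.le ?_)⟩
  have h1 : 0 < 1 - r := by linarith
  rw [div_lt_iff₀ h1] at hm
  unfold Rm
  have h2 : 1 / ((m : ℝ) + 2) ≤ 1 - r := by
    rw [div_le_iff₀ (by positivity)]
    nlinarith
  linarith

theorem small_of_countable (hc : Countable (G n ⧸ HS n)) {R : ℝ} (hR0 : 0 ≤ R) (hR1 : R < 1) :
    ∃ m : ℕ, ∀ d : ℕ → SP n (Rm m), Dns d → ∀ δ : ℝ, 0 < δ → ∃ ε > 0, ∀ g ∈ Gn n R,
      (∀ x : E n, dist (g • x) x < ε) → ∃ a b : FS d (2 * δ),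
        g = (ep (Rm_pos m) (Rm_lt m) a)⁻¹ * ep (Rm_pos m) (Rm_lt m) b := by
  obtain ⟨T, hT, hTc⟩ := exists_reps hc R
  set Hs : Subgroup (HG (Zn n)) := (Gn n R).map res with hHs
  have hHcl : IsClosed (Hs : Set (HG (Zn n))) := closed_Gn hR0 hR1
  set B : ℕ → Set Hs := fun m => {h : Hs | ∃ t ∈ T, ∃ H ψ Φ, TPath n (CB n (Rm m)) H ψ Φ ∧
    ∃ g : G n, (g : E n ≃ₜ E n) = endp Φ ∧ (h : HG (Zn n)) = res t * res g} with hB
  obtain ⟨m, hm⟩ := exists_nonmeagre Hs hHcl B (by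
    rintro ⟨_, h, hh, rfl⟩
    obtain ⟨t, htT, ht, htF⟩ := hTc h hh
    obtain ⟨K, H, ψ, Φ, h1, h2⟩ := exists_TPath (⟨_, htF⟩ : Hm n)
    obtain ⟨m, hm⟩ := exists_Rm_ge h1.comp h1.sub
    refine ⟨m, t, htT, H, ψ, Φ, TPath.mono h1 (isCompact_CB _) (CB_sub (Rm_pos m) (Rm_lt m)) hm,
      t⁻¹ * h, h2.symm, ?_⟩
    rw [map_mul, map_inv, mul_inv_cancel_left])
  refine ⟨m, fun d hd δ hδ => ?_⟩
  set T' : Set (HG (Zn n)) := image2 (fun (t : G n) (i : ℕ) => res t * res (d i).bs) T univ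
    with hT'
  have hT'c : T'.Countable := hT.image2 countable_univ _
  obtain ⟨U, hU, hw⟩ := baire_part (ep_cont (Rm_pos m) (Rm_lt m) d (2 * δ)) Hs hHcl (B m) hm T'
    hT'c (by
      rintro h ⟨t, ht, H, ψ, Φ, hp, g, hg, hh⟩
      obtain ⟨i, a, ha⟩ := cover (Rm_pos m) (Rm_lt m) hd hp hδ
      refine ⟨res t * res (d i).bs, ⟨t, ht, i, trivial, rfl⟩, a, ?_⟩
      have e : g = (d i).bs * ep (Rm_pos m) (Rm_lt m) a := Subtype.ext (hg.trans ha)
      rw [hh, e, map_mul, mul_assoc])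
  obtain ⟨ε, hε, h1⟩ := HG.small_mem_nhds hU
  refine ⟨ε, hε, fun g hg hgs => ?_⟩
  obtain ⟨p, q, hpq⟩ := hw (res g) (h1 _ fun z => hgs z) ⟨g, hg, rfl⟩
  refine ⟨p, q, ?_⟩
  apply res_inj
  rw [map_mul, map_inv]
  exact hpq

end Pool.Agent.W_68f289_h51
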