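import Pool.Agent.W_68f289_h51.EnS
import Pool.Agent.W_68f289_h51.EnG

/-!
Products and inverses of homeomorphisms generated with small energy.
-/

open Set Metric Topology Filter Pool.Agent.W_MP_68f289_gt Pool.Agent.W_68f289_h35
open scoped NNReal ContDiff

namespace Pool.Agent.W_68f289_h51

open Pool.Agent.W_68f289_t6 (r1 r2 r1_one r2_one conc concf conc_iso rev revf rev_iso exists_homeo)

variable {n : ℕ} {r : ℝ} {K K' : Set (E n)} {H H' : ℕ → ℝ → E n → ℝ} {ψ ψ' : ℕ → ℝ → E n → E n}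
  {Φ Φ' : Icc (0 : ℝ) 1 → (E n ≃ₜ E n)}

lemma mul_path (h : TPath n K H ψ Φ) (h' : TPath n K H' ψ' Φ') :
    TPath n K (fun k => conc (H' k) (H k)) (fun k => concf (ψ' k) (ψ k))
      (fun t => Φ ⟨r2 t, r2_mem t⟩ * Φ' ⟨r1 t, r1_mem t⟩) := by
  refine ⟨h.comp, h.sub, fun k => conc_iso (h'.iso k) (h.iso k), fun k t x hx => ?_, ?_, ?_⟩
  · unfold conc
    rw [h.supp _ _ _ hx, h'.supp _ _ _ hx]; ring
  · intro ε hε
    obtain ⟨N, hN⟩ := h.cauchy (ε / 2) (half_pos hε)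
    obtain ⟨N', hN'⟩ := h'.cauchy (ε / 2) (half_pos hε)
    refine ⟨max N N', fun j k hj hk => ?_⟩
    have e : (fun (t : ℝ) (x : E n) => conc (H' j) (H j) t x - conc (H' k) (H k) t x) =
        conc (fun t x => H' j t x - H' k t x) (fun t x => H j t x - H k t x) := by
      funext t x
      unfold conc
      ring
    rw [e]
    have hc : ∀ k, Continuous (Function.uncurry (H k)) := fun k => (h.iso k).smooth.continuous
    have hc' : ∀ k, Continuous (Function.uncurry (H' k)) := fun k => (h'.iso k).smooth.continuous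
    have h1 := hofer_conc_le (H := fun t x => H' j t x - H' k t x)
      (H' := fun t x => H j t x - H k t x) (K := K) ((hc' j).sub (hc' k))
      ((hc j).sub (hc k)) h.comp
      (fun t x hx => by rw [h'.supp _ _ _ hx, h'.supp _ _ _ hx, sub_self])
      (fun t x hx => by rw [h.supp _ _ _ hx, h.supp _ _ _ hx, sub_self])
    have h2 := hN j k ((le_max_left _ _).trans hj) ((le_max_left _ _).trans hk)
    have h3 := hN' j k ((le_max_right _ _).trans hj) ((le_max_right _ _).trans hk)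
    linarith
  · intro ε hε
    obtain ⟨δ, hδ, hu⟩ := h.unif (half_pos hε)
    obtain ⟨N, hN⟩ := h.conv (ε / 2) (half_pos hε)
    obtain ⟨N', hN'⟩ := h'.conv δ hδ
    refine ⟨max N N', fun k hk t x => ?_⟩
    have h1 := hN k ((le_max_left _ _).trans hk) ⟨r2 t, r2_mem t⟩ (ψ' k (r1 t) x)
    have h2 := hN' k ((le_max_right _ _).trans hk) ⟨r1 t, r1_mem t⟩ x
    have h3 := hu ⟨r2 t, r2_mem t⟩ ⟨r2 t, r2_mem t⟩ (by simpa using hδ) _ _ h2
    calc dist (ψ k (r2 t) (ψ' k (r1 t) x)) (Φ ⟨r2 t, r2_mem t⟩ (Φ' ⟨r1 t, r1_mem t⟩ x)) ≤ _ :=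
          dist_triangle _ _ _
      _ < ε / 2 + ε / 2 := add_lt_add h1 h3
      _ = ε := add_halves ε

lemma Small.mul {δ δ' : ℝ} {u v : E n ≃ₜ E n} (hu : u ∈ Small n K δ) (hv : v ∈ Small n K δ') :
    u * v ∈ Small n K (δ + δ') := by
  obtain ⟨H, ψ, Φ, h1, h2, h3, h4⟩ := hu
  obtain ⟨H', ψ', Φ', h1', h2', h3', h4'⟩ := hv
  refine ⟨_, _, _, mul_path h1 h1', ?_, fun k => ?_, fun t x => ?_⟩
  · rw [← h2, ← h2']
    change Φ ⟨r2 1, r2_mem 1⟩ * Φ' ⟨r1 1, r1_mem 1⟩ = Φ ⟨1, _⟩ * Φ' ⟨1, _⟩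
    have e1 : (⟨r2 1, r2_mem 1⟩ : Icc (0 : ℝ) 1) = ⟨1, by simp⟩ := Subtype.ext r2_one
    have e2 : (⟨r1 1, r1_mem 1⟩ : Icc (0 : ℝ) 1) = ⟨1, by simp⟩ := Subtype.ext r1_one
    rw [e1, e2]
  · have h5 := hofer_conc_le (h1'.iso k).smooth.continuous (h1.iso k).smooth.continuous h1.comp
      (h1'.supp k) (h1.supp k)
    linarith [h3 k, h3' k]
  · change dist (Φ ⟨r2 t, r2_mem t⟩ (Φ' ⟨r1 t, r1_mem t⟩ x)) x ≤ δ + δ'
    have h5 := h4 ⟨r2 t, r2_mem t⟩ (Φ' ⟨r1 t, r1_mem t⟩ x)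
    have h6 := h4' ⟨r1 t, r1_mem t⟩ x
    have h7 := dist_triangle (Φ ⟨r2 t, r2_mem t⟩ (Φ' ⟨r1 t, r1_mem t⟩ x)) (Φ' ⟨r1 t, r1_mem t⟩ x) x
    linarith

lemma one_sub_mem (t : Icc (0 : ℝ) 1) : 1 - (t : ℝ) ∈ Icc (0 : ℝ) 1 :=
  ⟨by linarith [t.2.2], by linarith [t.2.1]⟩

lemma inv_path (h : TPath n K H ψ Φ) {u : ℕ → (E n ≃ₜ E n)} (hu1 : ∀ k x, u k x = ψ k 1 x) :
    TPath n K (fun k => rev (H k)) (fun k => revf (u k) (ψ k))
      (fun t => Φ ⟨1 - t, one_sub_mem t⟩ * (endp Φ)⁻¹) := by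
  have hoff : ∀ x, x ∉ K → endp Φ x = x := fun x hx => h.off _ hx
  refine ⟨h.comp, h.sub, fun k => rev_iso (h.iso k) (hu1 k), fun k t x hx => ?_, ?_, ?_⟩
  · unfold rev
    rw [h.supp _ _ _ hx, mul_zero]
  · intro ε hε
    obtain ⟨N, hN⟩ := h.cauchy ε hε
    refine ⟨N, fun j k hj hk => ?_⟩
    have e : (fun (t : ℝ) (x : E n) => rev (H j) t x - rev (H k) t x) =
        fun t x => (fun (t : ℝ) (x : E n) => H k t x - H j t x) (1 - t) x := by
      funext t x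
      unfold rev
      ring
    rw [e, hofer_reverse (fun (t : ℝ) (x : E n) => H k t x - H j t x)]
    exact hN k j hk hj
  · intro ε hε
    obtain ⟨δ, hδ, hun⟩ := h.unif (half_pos hε)
    obtain ⟨N, hN⟩ := h.conv (ε / 2) (half_pos hε)
    obtain ⟨η, hη, hinv⟩ := inv_conv h.comp hoff hδ
    obtain ⟨N', hN'⟩ := h.conv η hη
    refine ⟨max N N', fun k hk t x => ?_⟩
    have h1 := hN k ((le_max_left _ _).trans hk) ⟨1 - t, one_sub_mem t⟩ ((u k).symm x)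
    have h2 := hinv (u k) (fun y => by
      rw [hu1]
      exact hN' k ((le_max_right _ _).trans hk) ⟨1, by simp⟩ y) x
    have h3 := hun ⟨1 - t, one_sub_mem t⟩ ⟨1 - t, one_sub_mem t⟩ (by simpa using hδ) _ _ h2
    calc dist (ψ k (1 - t) ((u k).symm x)) (Φ ⟨1 - t, one_sub_mem t⟩ ((endp Φ).symm x)) ≤ _ :=
          dist_triangle _ _ _
      _ < ε / 2 + ε / 2 := add_lt_add h1 h3
      _ = ε := add_halves ε

lemma Small.inv {δ : ℝ} {u : E n ≃ₜ E n} (hu : u ∈ Small n K δ) : u⁻¹ ∈ Small n K (2 * δ) := by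
  obtain ⟨H, ψ, Φ, h1, h2, h3, h4⟩ := hu
  choose v _ hv1 using fun k => exists_homeo (h1.iso k)
  have hδ : 0 ≤ δ := dist_nonneg.trans (h4 ⟨0, by simp⟩ 0)
  refine ⟨_, _, _, inv_path h1 hv1, ?_, fun k => ?_, fun t x => ?_⟩
  · rw [← h2]
    change Φ ⟨1 - 1, _⟩ * (endp Φ)⁻¹ = _
    have e1 : (⟨1 - (1 : ℝ), one_sub_mem ⟨1, by simp⟩⟩ : Icc (0 : ℝ) 1) = ⟨0, by simp⟩ :=
      Subtype.ext (sub_self _)
    have e2 : Φ ⟨0, by simp⟩ = 1 := by
      ext x : 1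
      rw [h1.zero x]; rfl
    rw [e1, e2, one_mul]
  · have e : rev (H k) = fun t x => (fun (t : ℝ) (x : E n) => -1 * H k t x) (1 - t) x := rfl
    have hb : ∀ t, Bd (H k t) := fun t =>
      bd_of_supp (h1.iso k).smooth.continuous h1.comp (h1.supp k) t
    rw [e, hofer_reverse (fun (t : ℝ) (x : E n) => -1 * H k t x), hofer_const_mul hb]
    have := h3 k
    simp only [abs_neg, abs_one, one_mul]
    linarith
  · change dist (Φ ⟨1 - t, one_sub_mem t⟩ ((endp Φ).symm x)) x ≤ 2 * δ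
    have h5 := h4 ⟨1 - t, one_sub_mem t⟩ ((endp Φ).symm x)
    have h6 := h4 ⟨1, by simp⟩ ((endp Φ).symm x)
    have e : Φ ⟨1, by simp⟩ ((endp Φ).symm x) = x := (endp Φ).apply_symm_apply x
    rw [e] at h6
    have h7 := dist_triangle_right (Φ ⟨1 - t, one_sub_mem t⟩ ((endp Φ).symm x)) x
      ((endp Φ).symm x)
    linarith

/-- if the hameomorphisms have countable index, then small Hamiltonian homeomorphisms have small
energy -/
theorem small_energy (hc : Countable (G n ⧸ HS n)) {R : ℝ} (hR0 : 0 ≤ R) (hR1 : R < 1) :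
    ∃ m : ℕ, ∀ δ : ℝ, 0 < δ → ∃ ε > 0, ∀ g ∈ Gn n R, (∀ x : E n, dist (g • x) x < ε) →
      (g : E n ≃ₜ E n) ∈ Small n (CB n (Rm m)) δ := by
  obtain ⟨m, hm⟩ := small_of_countable hc hR0 hR1
  obtain ⟨d, hd⟩ := exists_dense (n := n) (Rm_pos m) (Rm_lt m)
  refine ⟨m, fun δ hδ => ?_⟩
  obtain ⟨ε, hε, h⟩ := hm d hd (δ / 6) (by positivity)
  refine ⟨ε, hε, fun g hg hgs => ?_⟩
  obtain ⟨a, b, rfl⟩ := h g hg hgs
  have key : ∀ a : FS d (2 * (δ / 6)), (ep (Rm_pos m) (Rm_lt m) a : E n ≃ₜ E n) ∈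
      Small n (CB n (Rm m)) (2 * (δ / 6)) := fun a =>
    ⟨_, _, _, limP_path (Rm_pos m) (Rm_lt m) a, rfl, a.2.2.1, limP_dist (Rm_pos m) (Rm_lt m) a⟩
  have h1 := Small.mul (Small.inv (key a)) (key b)
  have e : 2 * (2 * (δ / 6)) + 2 * (δ / 6) = δ := by ring
  rw [e] at h1
  exact h1

end Pool.Agent.W_68f289_h51
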