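import Pool.Agent.W_68f289_h51.EnH

/-!
Appending a topological Hamiltonian path to another one in a prescribed time interval.
-/

open Set Metric Topology Filter Pool.Agent.W_MP_68f289_gt Pool.Agent.W_68f289_h35
open scoped NNReal ContDiff

namespace Pool.Agent.W_68f289_h51

variable {n : ℕ} {K : Set (E n)}

/-- reparametrisation of time: `0` for `t ≤ 1 - 2^{-N}`, and `1` for `t ≥ 1 - 2^{-N-1}` -/
noncomputable def tau (N : ℕ) (t : ℝ) : ℝ := th (2 ^ (N + 1) * t - (2 ^ (N + 1) - 2))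

lemma tau_smooth (N : ℕ) : ContDiff ℝ ((⊤ : ℕ∞) : WithTop ℕ∞) (tau N) := th_comp_smooth _ _

lemma tau_mem (N : ℕ) (t : ℝ) : tau N t ∈ Icc (0 : ℝ) 1 :=
  ⟨Real.smoothTransition.nonneg _, Real.smoothTransition.le_one _⟩

lemma tau_mono (N : ℕ) : Monotone (tau N) := by
  intro s t h
  apply th_monotone
  have : (0 : ℝ) < 2 ^ (N + 1) := by positivity
  nlinarith

lemma tau_deriv_nonneg (N : ℕ) (t : ℝ) : 0 ≤ deriv (tau N) t := (tau_mono N).deriv_nonneg

lemma tau_zero_of_le {N : ℕ} {t : ℝ} (h : t ≤ 1 - (1 / 2) ^ N) : tau N t = 0 := by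
  apply Real.smoothTransition.zero_of_nonpos
  have h1 : (0 : ℝ) < 2 ^ (N + 1) := by positivity
  have h2 : (2 : ℝ) ^ (N + 1) * (1 / 2) ^ N = 2 := by
    rw [pow_succ, mul_assoc, mul_comm (2 : ℝ), ← mul_assoc, ← mul_pow]; norm_num
  nlinarith

lemma tau_one_of_le {N : ℕ} {t : ℝ} (h : 1 - (1 / 2) ^ (N + 1) ≤ t) : tau N t = 1 := by
  apply Real.smoothTransition.one_of_one_le
  have h1 : (0 : ℝ) < 2 ^ (N + 1) := by positivity
  have h2 : (2 : ℝ) ^ (N + 1) * (1 / 2) ^ (N + 1) = 1 := by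
    rw [← mul_pow]; norm_num
  nlinarith

lemma tau_zero (N : ℕ) : tau N 0 = 0 := tau_zero_of_le (by
  have : ((1 : ℝ) / 2) ^ N ≤ 1 := pow_le_one₀ (by norm_num) (by norm_num)
  linarith)

lemma tau_one (N : ℕ) : tau N 1 = 1 := tau_one_of_le (by
  have : (0 : ℝ) < (1 / 2) ^ (N + 1) := by positivity
  linarith)

lemma tau_deriv_late {N : ℕ} {t : ℝ} (h : 1 - (1 / 2) ^ (N + 1) ≤ t) : deriv (tau N) t = 0 := by
  apply IsLocalMax.deriv_eq_zero
  refine Filter.Eventually.of_forall fun s => ?_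
  change tau N s ≤ tau N t
  rw [tau_one_of_le h]
  exact (tau_mem N s).2

/-- topological Hamiltonian paths which stop at the time `1 - 2^{-N}` -/
structure Seg (n : ℕ) (K : Set (E n)) (N : ℕ) where
  H : ℕ → ℝ → E n → ℝ
  ψ : ℕ → ℝ → E n → E n
  Φ : Icc (0 : ℝ) 1 → (E n ≃ₜ E n)
  path : TPath n K H ψ Φ
  late : ∀ k t x, 1 - (1 / 2) ^ N ≤ t → H k t x = 0

/-- the relation between consecutive paths -/
structure Rel (w : E n ≃ₜ E n) (δ : ℝ) {N : ℕ} (X : Seg n K N) (Y : Seg n K (N + 1)) : Prop where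
  hof : ∀ k, hofer (fun t x => Y.H k t x - X.H k t x) ≤ δ
  dst : ∀ t x, dist (Y.Φ t x) (X.Φ t x) ≤ δ
  eq : ∀ t : Icc (0 : ℝ) 1, (t : ℝ) ≤ 1 - (1 / 2) ^ N → Y.Φ t = X.Φ t
  end_eq : endp Y.Φ = w * endp X.Φ

/-- the Hamiltonian of the appended path -/
noncomputable def appH (N : ℕ) (H A : ℝ → E n → ℝ) : ℝ → E n → ℝ :=
  fun t x => deriv (tau N) t * A (tau N t) x + H t x

lemma app_iso {N : ℕ} {H A : ℝ → E n → ℝ} {ψ a : ℝ → E n → E n} (h : HIso n H ψ)
    (hA : HIso n A a) (late : ∀ t x, 1 - (1 / 2) ^ N ≤ t → H t x = 0) :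
    HIso n (appH N H A) (fun t x => a (tau N t) (ψ t x)) := by
  have h1 := HIso.reparam hA (tau_smooth N)
  have hinv0 : ∀ x, HIso.inv hA (tau N 0) x = x := by
    intro x
    rw [tau_zero]
    have := HIso.inv_apply hA 0 x
    rwa [hA.zero] at this
  have e1 : (fun (t : ℝ) (x : E n) => a (tau N t) (HIso.inv hA (tau N 0) x)) =
      fun t x => a (tau N t) x := by
    funext t x
    rw [hinv0]
  rw [e1] at h1
  have h2 := HIso.comp h1 h
  have e2 : (fun (t : ℝ) (x : E n) => deriv (tau N) t * A (tau N t) x + H t (HIso.inv h1 t x)) =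
      appH N H A := by
    funext t x
    unfold appH
    congr 1
    rcases le_total t (1 - (1 / 2) ^ N) with ht | ht
    · have h3 := HIso.inv_apply h1 t x
      rw [tau_zero_of_le ht, hA.zero] at h3
      rw [h3]
    · rw [late t _ ht, late t _ ht]
  rw [e2] at h2
  exact h2

lemma hofer_app_le {N : ℕ} {H A : ℝ → E n → ℝ} (hH : Continuous (Function.uncurry H))
    (hA : Continuous (Function.uncurry A)) (hc : IsCompact K)
    (hK : ∀ t, ∀ x, x ∉ K → H t x = 0) (hK' : ∀ t, ∀ x, x ∉ K → A t x = 0) :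
    hofer (appH N H A) ≤ hofer A + hofer H := by
  have hr : Continuous (deriv (tau N)) := (contDiff_infty_iff_deriv.1 (tau_smooth N)).2.continuous
  have h1 : Continuous (Function.uncurry fun (t : ℝ) (x : E n) =>
      deriv (tau N) t * A (tau N t) x) :=
    (hr.comp continuous_fst).mul
      (hA.comp (((tau_smooth N).continuous.comp continuous_fst).prodMk continuous_snd))
  refine (hofer_add_le h1 hH hc (fun t x hx => by rw [hK' _ x hx, mul_zero]) hK).trans
    (add_le_add ?_ le_rfl)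
  exact hofer_reparam_le hA hc hK' (tau_smooth N) (tau_deriv_nonneg N) (tau_mem N 0).1
    (tau_mem N 1).2

theorem exists_step {N : ℕ} (X : Seg n K N) {w : E n ≃ₜ E n} {δ : ℝ} (hw : w ∈ Small n K δ) :
    ∃ Y : Seg n K (N + 1), Rel w δ X Y := by
  obtain ⟨A, a, Ψ, h1, h2, h3, h4⟩ := hw
  have hX := X.path
  have hcX : ∀ k, Continuous (Function.uncurry (X.H k)) := fun k => (hX.iso k).smooth.continuous
  have hcA : ∀ k, Continuous (Function.uncurry (A k)) := fun k => (h1.iso k).smooth.continuous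
  have hpath : TPath n K (fun k => appH N (X.H k) (A k))
      (fun k t x => a k (tau N t) (X.ψ k t x))
      (fun t => Ψ ⟨tau N t, tau_mem N t⟩ * X.Φ t) := by
    refine ⟨hX.comp, hX.sub, fun k => app_iso (hX.iso k) (h1.iso k) fun t x ht => X.late k t x ht,
      fun k t x hx => ?_, fun ε hε => ?_, fun ε hε => ?_⟩
    · unfold appH
      rw [hX.supp _ _ _ hx, h1.supp _ _ _ hx, mul_zero, add_zero]
    · obtain ⟨N1, hN1⟩ := hX.cauchy (ε / 2) (half_pos hε)
      obtain ⟨N2, hN2⟩ := h1.cauchy (ε / 2) (half_pos hε)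
      refine ⟨max N1 N2, fun j k hj hk => ?_⟩
      have e : (fun (t : ℝ) (x : E n) => appH N (X.H j) (A j) t x - appH N (X.H k) (A k) t x) =
          appH N (fun t x => X.H j t x - X.H k t x) (fun t x => A j t x - A k t x) := by
        funext t x
        unfold appH
        ring
      rw [e]
      have h5 := hofer_app_le (N := N) (H := fun t x => X.H j t x - X.H k t x)
        (A := fun t x => A j t x - A k t x) ((hcX j).sub (hcX k)) ((hcA j).sub (hcA k)) hX.comp
        (fun t x hx => by rw [hX.supp _ _ _ hx, hX.supp _ _ _ hx, sub_self])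
        (fun t x hx => by rw [h1.supp _ _ _ hx, h1.supp _ _ _ hx, sub_self])
      have h6 := hN1 j k ((le_max_left _ _).trans hj) ((le_max_left _ _).trans hk)
      have h7 := hN2 j k ((le_max_right _ _).trans hj) ((le_max_right _ _).trans hk)
      linarith
    · obtain ⟨η, hη, hu⟩ := h1.unif (half_pos hε)
      obtain ⟨N1, hN1⟩ := h1.conv (ε / 2) (half_pos hε)
      obtain ⟨N2, hN2⟩ := hX.conv η hη
      refine ⟨max N1 N2, fun k hk t x => ?_⟩
      have h5 := hN1 k ((le_max_left _ _).trans hk) ⟨tau N t, tau_mem N t⟩ (X.ψ k t x)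
      have h6 := hN2 k ((le_max_right _ _).trans hk) t x
      have h7 := hu ⟨tau N t, tau_mem N t⟩ ⟨tau N t, tau_mem N t⟩ (by simpa using hη) _ _ h6
      calc dist (a k (tau N t) (X.ψ k t x)) (Ψ ⟨tau N t, tau_mem N t⟩ (X.Φ t x)) ≤ _ :=
            dist_triangle _ _ _
        _ < ε / 2 + ε / 2 := add_lt_add h5 h7
        _ = ε := add_halves ε
  refine ⟨⟨_, _, _, hpath, fun k t x ht => ?_⟩, ⟨fun k => ?_, fun t x => ?_, fun t ht => ?_, ?_⟩⟩
  · unfold appH
    rw [tau_deriv_late ht, X.late k t x, zero_mul, add_zero]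
    have : ((1 : ℝ) / 2) ^ (N + 1) ≤ (1 / 2) ^ N :=
      pow_le_pow_of_le_one (by norm_num) (by norm_num) (Nat.le_succ N)
    linarith
  · have e : (fun (t : ℝ) (x : E n) => appH N (X.H k) (A k) t x - X.H k t x) =
        fun t x => deriv (tau N) t * A k (tau N t) x := by
      funext t x
      unfold appH
      ring
    change hofer (fun (t : ℝ) (x : E n) => appH N (X.H k) (A k) t x - X.H k t x) ≤ δ
    rw [e]
    exact (hofer_reparam_le (hcA k) h1.comp (h1.supp k) (tau_smooth N) (tau_deriv_nonneg N)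
      (tau_mem N 0).1 (tau_mem N 1).2).trans (h3 k)
  · exact h4 _ _
  · change Ψ ⟨tau N t, tau_mem N t⟩ * X.Φ t = X.Φ t
    have e1 : (⟨tau N t, tau_mem N t⟩ : Icc (0 : ℝ) 1) = ⟨0, by simp⟩ :=
      Subtype.ext (tau_zero_of_le ht)
    have e2 : Ψ ⟨0, by simp⟩ = 1 := by
      ext x : 1
      rw [h1.zero x]; rfl
    rw [e1, e2, one_mul]
  · change Ψ ⟨tau N 1, tau_mem N 1⟩ * endp X.Φ = w * endp X.Φ
    have e1 : (⟨tau N 1, tau_mem N 1⟩ : Icc (0 : ℝ) 1) = ⟨1, by simp⟩ :=
      Subtype.ext (tau_one N)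
    rw [e1, ← h2]
    rfl

end Pool.Agent.W_68f289_h51
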