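import Pool.Agent.W_68f289_h51.EnI

/-!
Limits of topological Hamiltonian paths, infinite products of homeomorphisms generated with small
energy, and the converse implication of the energy criterion.
-/

open Set Metric Topology Filter Pool.Agent.W_MP_68f289_gt Pool.Agent.W_68f289_h35
open scoped NNReal ContDiff

namespace Pool.Agent.W_68f289_h51

variable {n : ℕ} {K : Set (E n)}

/-- limits of topological Hamiltonian paths -/
theorem path_lim {H : ℕ → ℕ → ℝ → E n → ℝ} {ψ : ℕ → ℕ → ℝ → E n → E n}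
    {Φ : ℕ → Icc (0 : ℝ) 1 → (E n ≃ₜ E n)} (h : ∀ N, TPath n K (H N) (ψ N) (Φ N))
    (hH : ∀ ε : ℝ, 0 < ε → ∃ N₀, ∀ N ≥ N₀, ∀ M ≥ N₀, ∀ k,
      hofer (fun t x => H N k t x - H M k t x) ≤ ε)
    {Ψ : Icc (0 : ℝ) 1 → (E n ≃ₜ E n)}
    (hΨ : ∀ ε : ℝ, 0 < ε → ∃ N₀, ∀ N ≥ N₀, ∀ t x, dist (Φ N t x) (Ψ t x) ≤ ε) :
    ∃ H' ψ', TPath n K H' ψ' Ψ := by
  have hpos : ∀ N : ℕ, (0 : ℝ) < (1 / 2) ^ N := fun N => by positivity
  choose k1 hk1 using fun N => (h N).cauchy ((1 / 2) ^ N) (hpos N)
  choose k2 hk2 using fun N => (h N).conv ((1 / 2) ^ N) (hpos N)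
  set κ : ℕ → ℕ := fun N => max (k1 N) (k2 N) with hκ
  have hc : ∀ N k, Continuous (Function.uncurry (H N k)) := fun N k =>
    ((h N).iso k).smooth.continuous
  have hsm : ∀ ε : ℝ, 0 < ε → ∃ N₀ : ℕ, ∀ N ≥ N₀, ((1 : ℝ) / 2) ^ N < ε := by
    intro ε hε
    obtain ⟨N₀, hN₀⟩ := exists_pow_lt_of_lt_one hε (show (1 : ℝ) / 2 < 1 by norm_num)
    exact ⟨N₀, fun N hN => (pow_le_pow_of_le_one (by norm_num) (by norm_num) hN).trans_lt hN₀⟩
  have tri : ∀ (N j M k : ℕ) (P : ℕ) (i : ℕ), hofer (fun t x => H N j t x - H M k t x) ≤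
      hofer (fun t x => H N j t x - H P i t x) + hofer (fun t x => H P i t x - H M k t x) := by
    intro N j M k P i
    have h1 := hofer_add_le (H := fun t x => H N j t x - H P i t x)
      (H' := fun t x => H P i t x - H M k t x)
      ((hc N j).sub (hc P i)) ((hc P i).sub (hc M k)) (h 0).comp
      (fun t x hx => by rw [(h N).supp j t x hx, (h P).supp i t x hx, sub_self])
      (fun t x hx => by rw [(h P).supp i t x hx, (h M).supp k t x hx, sub_self])
    have e : (fun (t : ℝ) (x : E n) => H N j t x - H P i t x + (H P i t x - H M k t x)) =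
        fun t x => H N j t x - H M k t x := by
      funext t x; ring
    rw [e] at h1
    exact h1
  refine ⟨fun N => H N (κ N), fun N => ψ N (κ N), ⟨(h 0).comp, (h 0).sub, fun N => (h N).iso _,
    fun N => (h N).supp _, fun ε hε => ?_, fun ε hε => ?_⟩⟩
  · obtain ⟨N1, hN1⟩ := hH (ε / 4) (by positivity)
    obtain ⟨N2, hN2⟩ := hsm (ε / 4) (by positivity)
    refine ⟨max N1 N2, fun N M hN hM => ?_⟩
    set i := max (κ N) (κ M) with hi
    have h1 := tri N (κ N) M (κ M) N i
    have h2 := tri N i M (κ M) M i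
    have h3 := hN1 N ((le_max_left _ _).trans hN) M ((le_max_left _ _).trans hM) i
    have h4 := hk1 N (κ N) i (le_max_left _ _) ((le_max_left _ _).trans (le_max_left _ _))
    have h5 := hk1 M i (κ M) ((le_max_left _ _).trans (le_max_right _ _)) (le_max_left _ _)
    have h6 := hN2 N ((le_max_right _ _).trans hN)
    have h7 := hN2 M ((le_max_right _ _).trans hM)
    linarith
  · obtain ⟨N1, hN1⟩ := hΨ (ε / 2) (half_pos hε)
    obtain ⟨N2, hN2⟩ := hsm (ε / 2) (half_pos hε)
    refine ⟨max N1 N2, fun N hN t x => ?_⟩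
    have h1 := hk2 N (κ N) (le_max_right _ _) t x
    have h2 := hN1 N ((le_max_left _ _).trans hN) t x
    have h3 := hN2 N ((le_max_right _ _).trans hN)
    have h4 := dist_triangle (ψ N (κ N) t x) (Φ N t x) (Ψ t x)
    linarith

/-- the constant path -/
def seg0 (hc : IsCompact K) (hKB : K ⊆ Bl n) : Seg n K 0 where
  H := fun _ _ _ => 0
  ψ := fun _ _ x => x
  Φ := fun _ => 1
  path := ⟨hc, hKB, fun _ => (SP.zero n 0).iso, fun _ _ _ _ => rfl, fun ε hε => ⟨0, fun j k _ _ => by
      have e : (fun (t : ℝ) (x : E n) => (0 : ℝ) - 0) = fun _ _ => (0 : ℝ) := by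
        funext t x; ring
      rw [e, hofer_eq]
      simpa [osc] using hε⟩, fun ε hε => ⟨0, fun k _ t x => by
      change dist x x < ε
      rwa [dist_self]⟩⟩
  late := fun _ _ _ _ => rfl

/-- a sequence of consecutive paths -/
theorem exists_segs (hc : IsCompact K) (hKB : K ⊆ Bl n) {w : ℕ → (E n ≃ₜ E n)} {δ : ℕ → ℝ}
    (hw : ∀ N, w N ∈ Small n K (δ N)) :
    ∃ X : (N : ℕ) → Seg n K N, endp (X 0).Φ = 1 ∧ ∀ N, Rel (w N) (δ N) (X N) (X (N + 1)) := by
  choose f hf using fun (N : ℕ) (X : Seg n K N) => exists_step X (hw N)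
  refine ⟨fun N => Nat.rec (motive := fun N => Seg n K N) (seg0 hc hKB) f N, rfl, fun N => ?_⟩
  exact hf N _

/-- infinite products -/
theorem infinite_product (hc : IsCompact K) (hKB : K ⊆ Bl n) {w : ℕ → (E n ≃ₜ E n)}
    (hw : ∀ N, w N ∈ Small n K ((1 / 2) ^ N)) {v : ℕ → (E n ≃ₜ E n)} (hv0 : v 0 = 1)
    (hv : ∀ N, v (N + 1) = w N * v N) {g : E n ≃ₜ E n}
    (hg : ∀ ε : ℝ, 0 < ε → ∃ N₀ : ℕ, ∀ N ≥ N₀, ∀ x, dist (v N x) (g x) < ε) : g ∈ Hameo n := by
  classical
  obtain ⟨X, hX0, hX⟩ := exists_segs hc hKB hw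
  have hend : ∀ N, endp (X N).Φ = v N := by
    intro N
    induction N with
    | zero => rw [hX0, hv0]
    | succ N ih => rw [(hX N).end_eq, ih, hv]
  have hcX : ∀ N k, Continuous (Function.uncurry ((X N).H k)) := fun N k =>
    ((X N).path.iso k).smooth.continuous
  -- estimates
  have hH : ∀ N m k, hofer (fun t x => (X (N + m)).H k t x - (X N).H k t x) ≤
      2 * (1 / 2) ^ N - 2 * (1 / 2) ^ (N + m) := by
    intro N m k
    induction m with
    | zero =>
      have e : (fun (t : ℝ) (x : E n) => (X (N + 0)).H k t x - (X N).H k t x) =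
          fun _ _ => (0 : ℝ) := by
        funext t x; exact sub_self _
      rw [e, hofer_eq, add_zero, sub_self]
      simp [osc]
    | succ m ih =>
      have h1 := hofer_add_le (H := fun t x => (X (N + m + 1)).H k t x - (X (N + m)).H k t x)
        (H' := fun t x => (X (N + m)).H k t x - (X N).H k t x)
        ((hcX _ k).sub (hcX _ k)) ((hcX _ k).sub (hcX _ k)) hc
        (fun t x hx => by rw [(X _).path.supp k t x hx, (X _).path.supp k t x hx, sub_self])
        (fun t x hx => by rw [(X _).path.supp k t x hx, (X _).path.supp k t x hx, sub_self])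
      have e : (fun (t : ℝ) (x : E n) => (X (N + m + 1)).H k t x - (X (N + m)).H k t x +
          ((X (N + m)).H k t x - (X N).H k t x)) =
          fun t x => (X (N + (m + 1))).H k t x - (X N).H k t x := by
        funext t x
        change _ = (X (N + m + 1)).H k t x - (X N).H k t x
        ring
      rw [e] at h1
      have h2 := (hX (N + m)).hof k
      have h3 : ((1 : ℝ) / 2) ^ (N + (m + 1)) = (1 / 2) ^ (N + m) * (1 / 2) := by
        rw [← add_assoc, pow_succ]
      rw [h3]
      linarith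
  have hD : ∀ N m t x, dist ((X (N + m)).Φ t x) ((X N).Φ t x) ≤
      2 * (1 / 2) ^ N - 2 * (1 / 2) ^ (N + m) := by
    intro N m t x
    induction m with
    | zero => rw [add_zero, dist_self, sub_self]
    | succ m ih =>
      have h2 := (hX (N + m)).dst t x
      have h3 : ((1 : ℝ) / 2) ^ (N + (m + 1)) = (1 / 2) ^ (N + m) * (1 / 2) := by
        rw [← add_assoc, pow_succ]
      have h4 := dist_triangle ((X (N + m + 1)).Φ t x) ((X (N + m)).Φ t x) ((X N).Φ t x)
      rw [h3]
      change dist ((X (N + m + 1)).Φ t x) ((X N).Φ t x) ≤ _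
      linarith
  have hE : ∀ N m (t : Icc (0 : ℝ) 1), (t : ℝ) ≤ 1 - (1 / 2) ^ N →
      (X (N + m)).Φ t = (X N).Φ t := by
    intro N m t ht
    induction m with
    | zero => rfl
    | succ m ih =>
      rw [← ih]
      refine (hX (N + m)).eq t (ht.trans ?_)
      have : ((1 : ℝ) / 2) ^ (N + m) ≤ (1 / 2) ^ N :=
        pow_le_pow_of_le_one (by norm_num) (by norm_num) (Nat.le_add_right N m)
      linarith
  have hsm : ∀ ε : ℝ, 0 < ε → ∃ N₀ : ℕ, ∀ N ≥ N₀, 2 * ((1 : ℝ) / 2) ^ N < ε := by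
    intro ε hε
    obtain ⟨N₀, hN₀⟩ := exists_pow_lt_of_lt_one (half_pos hε) (show (1 : ℝ) / 2 < 1 by norm_num)
    refine ⟨N₀, fun N hN => ?_⟩
    have := (pow_le_pow_of_le_one (a := (1 : ℝ) / 2) (by norm_num) (by norm_num) hN).trans_lt hN₀
    linarith
  -- the limit
  have hex : ∀ t : Icc (0 : ℝ) 1, (t : ℝ) < 1 → ∃ N : ℕ, (t : ℝ) ≤ 1 - (1 / 2) ^ N := by
    intro t ht
    obtain ⟨N, hN⟩ := exists_pow_lt_of_lt_one (show 0 < 1 - (t : ℝ) by linarith)
      (show (1 : ℝ) / 2 < 1 by norm_num)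
    exact ⟨N, by linarith⟩
  set Ψ : Icc (0 : ℝ) 1 → (E n ≃ₜ E n) := fun t =>
    if ht : (t : ℝ) < 1 then (X (hex t ht).choose).Φ t else g with hΨ
  have hconv : ∀ ε : ℝ, 0 < ε → ∃ N₀, ∀ N ≥ N₀, ∀ t x, dist ((X N).Φ t x) (Ψ t x) ≤ ε := by
    intro ε hε
    obtain ⟨N1, hN1⟩ := hsm ε hε
    obtain ⟨N2, hN2⟩ := hg ε hε
    refine ⟨max N1 N2, fun N hN t x => ?_⟩
    have h0 : (0 : ℝ) < (1 / 2) ^ N := by positivity
    by_cases ht : (t : ℝ) < 1
    · have e : Ψ t = (X (hex t ht).choose).Φ t := dif_pos ht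
      rw [e]
      have hch := (hex t ht).choose_spec
      set M := (hex t ht).choose with hM
      rcases le_total N M with h | h
      · obtain ⟨m, hm⟩ := Nat.exists_eq_add_of_le h
        rw [hm, dist_comm]
        have h1 := hD N m t x
        have h2 := hN1 N ((le_max_left _ _).trans hN)
        have h3 : (0 : ℝ) < (1 / 2) ^ (N + m) := by positivity
        linarith
      · obtain ⟨m, hm⟩ := Nat.exists_eq_add_of_le h
        have h1 := hE M m t hch
        rw [hm, h1, dist_self]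
        exact hε.le
    · have e : Ψ t = g := dif_neg ht
      have ht1 : t = ⟨1, by simp⟩ := Subtype.ext (le_antisymm t.2.2 (not_lt.1 ht))
      rw [e]
      have h1 := hN2 N ((le_max_right _ _).trans hN) x
      rw [← hend N] at h1
      rw [ht1]
      exact h1.le
  obtain ⟨H', ψ', hp⟩ := path_lim (fun N => (X N).path) (fun ε hε => by
    obtain ⟨N₀, hN₀⟩ := hsm (ε / 2) (half_pos hε)
    have key : ∀ N M, N₀ ≤ N → N ≤ M → ∀ k,
        hofer (fun t x => (X M).H k t x - (X N).H k t x) ≤ ε := by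
      intro N M hN hNM k
      obtain ⟨m, rfl⟩ := Nat.exists_eq_add_of_le hNM
      have h1 := hH N m k
      have h2 := hN₀ N hN
      have h3 : (0 : ℝ) < (1 / 2) ^ (N + m) := by positivity
      linarith
    refine ⟨N₀, fun N hN M hM k => ?_⟩
    rcases le_total N M with h | h
    · have h1 := key N M hN h k
      have hb : ∀ t, Bd (fun x => (X M).H k t x - (X N).H k t x) := fun t =>
        (bd_of_supp (hcX M k) hc ((X M).path.supp k) t).sub
          (bd_of_supp (hcX N k) hc ((X N).path.supp k) t)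
      have h2 := hofer_const_mul (H := fun t x => (X M).H k t x - (X N).H k t x) hb (-1)
      have e : (fun (t : ℝ) (x : E n) => -1 * ((X M).H k t x - (X N).H k t x)) =
          fun t x => (X N).H k t x - (X M).H k t x := by
        funext t x; ring
      rw [e] at h2
      rw [h2]
      simpa using h1
    · exact key M N hM h k) hconv
  have h1 := hp.endp_mem
  have e : endp Ψ = g := by
    change Ψ ⟨1, by simp⟩ = g
    exact dif_neg (by simp)
  rwa [e] at h1

end Pool.Agent.W_68f289_h51
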