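import Pool.Agent.W_MP_68f289_gt.Pol
import Pool.Agent.W_MP_68f289_gt.Extra

/-!
Conjugation invariant norms on the group of Hamiltonian diffeomorphisms of the ball, the Hamiltonian
homeomorphisms which are uniform limits of Hamiltonian diffeomorphisms of bounded norm, and a Baire
category argument for them.
-/

open Set Metric Topology
open scoped ENNReal

namespace Pool.Agent.W_68f289_h51

open Pool.Agent.W_MP_68f289_gt

variable {n : ℕ}

/-! ### Definitions -/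

/-- `ν` is an extended norm, invariant under conjugation, on the group of Hamiltonian
diffeomorphisms of the ball; it may be degenerate, and may take the value `∞`. (Its values at other
homeomorphisms do not matter.) -/
structure CNorm (n : ℕ) (ν : (E n ≃ₜ E n) → ℝ≥0∞) : Prop where
  one : ν 1 = 0
  mul : ∀ u v, IsHam n u → IsHam n v → ν (u * v) ≤ ν u + ν v
  inv : ∀ u, IsHam n u → ν u⁻¹ = ν u
  conj : ∀ u v, IsHam n u → IsHam n v → ν (v * u * v⁻¹) = ν u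

/-- homeomorphisms supported in `K` which are uniform limits of Hamiltonian diffeomorphisms of
the ball supported in `K` of norm at most `C` -/
def NLim (n : ℕ) (ν : (E n ≃ₜ E n) → ℝ≥0∞) (K : Set (E n)) (C : ℕ) : Set (E n ≃ₜ E n) :=
  {φ | (∀ x, x ∉ K → φ x = x) ∧ ∀ ε : ℝ, 0 < ε → ∃ u : E n ≃ₜ E n, IsHam n u ∧
    (∀ x, x ∉ K → u x = x) ∧ ν u ≤ C ∧ ∀ x, dist (u x) (φ x) < ε}

/-- the norm `ν` is locally bounded up to uniform limits: for every `R < 1` there are `R' < 1`, `C`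
and `ε > 0` such that all Hamiltonian diffeomorphisms supported in the closed ball of radius `R`
which move all points by less than `ε` are uniform limits of Hamiltonian diffeomorphisms supported
in the closed ball of radius `R'` of norm at most `C` -/
def LocBdd (n : ℕ) (ν : (E n ≃ₜ E n) → ℝ≥0∞) : Prop :=
  ∀ R : ℝ, 0 < R → R < 1 → ∃ R' : ℝ, 0 < R' ∧ R' < 1 ∧ ∃ C : ℕ, ∃ ε > 0, ∀ u : E n ≃ₜ E n,
    IsHam n u → (∀ x, x ∉ CB n R → u x = x) → (∀ x, dist (u x) x < ε) →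
      u ∈ NLim n ν (CB n R') C

/-! ### Algebra of limits -/

lemma NLim_GS {ν : (E n ≃ₜ E n) → ℝ≥0∞} {K : Set (E n)} {C : ℕ} {φ : E n ≃ₜ E n}
    (h : φ ∈ NLim n ν K C) : φ ∈ GS n K :=
  ⟨h.1, fun ε hε => by
    obtain ⟨u, hu, huK, _, hud⟩ := h.2 ε hε
    exact ⟨u, hu, huK, hud⟩⟩

lemma NLim_mono {ν : (E n ≃ₜ E n) → ℝ≥0∞} {K K' : Set (E n)} {C C' : ℕ} (hK : K ⊆ K')
    (hC : C ≤ C') : NLim n ν K C ⊆ NLim n ν K' C' := by
  rintro φ ⟨h1, h2⟩
  refine ⟨fun x hx => h1 x fun hx' => hx (hK hx'), fun ε hε => ?_⟩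
  obtain ⟨u, hu, huK, huC, hud⟩ := h2 ε hε
  exact ⟨u, hu, fun x hx => huK x fun hx' => hx (hK hx'), huC.trans (by exact_mod_cast hC), hud⟩

lemma NLim_one {ν : (E n ≃ₜ E n) → ℝ≥0∞} (hν : CNorm n ν) (K : Set (E n)) (C : ℕ) :
    (1 : E n ≃ₜ E n) ∈ NLim n ν K C :=
  ⟨fun _ _ => rfl, fun ε hε => ⟨1, isHam_one, fun _ _ => rfl, by rw [hν.one]; exact zero_le,
    fun x => by rwa [dist_self]⟩⟩

lemma NLim_mul {ν : (E n ≃ₜ E n) → ℝ≥0∞} (hν : CNorm n ν) {K : Set (E n)} (hK : IsCompact K)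
    {C C' : ℕ} {φ ψ : E n ≃ₜ E n} (hφ : φ ∈ NLim n ν K C) (hψ : ψ ∈ NLim n ν K C') :
    φ * ψ ∈ NLim n ν K (C + C') := by
  refine ⟨fun x hx => ?_, fun ε hε => ?_⟩
  · change φ (ψ x) = x
    rw [hψ.1 x hx, hφ.1 x hx]
  · obtain ⟨δ, hδ, h1⟩ := unif φ.continuous hK hφ.1 (half_pos hε)
    obtain ⟨u, hu, huK, huC, hud⟩ := hφ.2 (ε / 2) (half_pos hε)
    obtain ⟨v, hv, hvK, hvC, hvd⟩ := hψ.2 δ hδ
    refine ⟨u * v, isHam_mul hu hv, fun x hx => ?_, ?_, fun x => ?_⟩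
    · change u (v x) = x
      rw [hvK x hx, huK x hx]
    · push_cast
      exact (hν.mul u v hu hv).trans (add_le_add huC hvC)
    · change dist (u (v x)) (φ (ψ x)) < ε
      calc dist (u (v x)) (φ (ψ x)) ≤ dist (u (v x)) (φ (v x)) + dist (φ (v x)) (φ (ψ x)) :=
            dist_triangle _ _ _
        _ < ε / 2 + ε / 2 := add_lt_add (hud _) (h1 _ _ (hvd x))
        _ = ε := add_halves ε

lemma NLim_inv {ν : (E n ≃ₜ E n) → ℝ≥0∞} (hν : CNorm n ν) {K : Set (E n)} (hK : IsCompact K)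
    {C : ℕ} {φ : E n ≃ₜ E n} (hφ : φ ∈ NLim n ν K C) : φ⁻¹ ∈ NLim n ν K C := by
  refine ⟨off_inv hφ.1, fun ε hε => ?_⟩
  obtain ⟨δ, hδ, h1⟩ := unif (φ⁻¹ : E n ≃ₜ E n).continuous hK (off_inv hφ.1) hε
  obtain ⟨u, hu, huK, huC, hud⟩ := hφ.2 δ hδ
  refine ⟨u⁻¹, isHam_inv hu, off_inv huK, by rw [hν.inv u hu]; exact huC, fun y => ?_⟩
  have h2 := h1 _ _ (hud (u⁻¹ y))
  have e1 : u (u⁻¹ y) = y := u.apply_symm_apply y
  have e2 : φ⁻¹ (φ (u⁻¹ y)) = u⁻¹ y := φ.symm_apply_apply _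
  rw [e1, e2, dist_comm] at h2
  exact h2

lemma NLim_conj {ν : (E n ≃ₜ E n) → ℝ≥0∞} (hν : CNorm n ν) {K : Set (E n)} (hK : IsCompact K)
    {C : ℕ} {φ g : E n ≃ₜ E n} (hφ : φ ∈ NLim n ν K C) (hg : g ∈ GS n K) :
    g * φ * g⁻¹ ∈ NLim n ν K C := by
  have hgi := off_inv hg.1
  refine ⟨fun x hx => ?_, fun ε hε => ?_⟩
  · change g (φ (g⁻¹ x)) = x
    rw [hgi x hx, hφ.1 x hx, hg.1 x hx]
  · obtain ⟨δ, hδ, h1⟩ := unif g.continuous hK hg.1 (half_pos hε)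
    obtain ⟨δ', hδ', h2⟩ := unif φ.continuous hK hφ.1 (half_pos hδ)
    obtain ⟨δ'', hδ'', h3⟩ := unif (g⁻¹ : E n ≃ₜ E n).continuous hK hgi hδ'
    obtain ⟨w, hw, hwK, hwd⟩ := hg.2 (min (ε / 2) δ'') (lt_min (half_pos hε) hδ'')
    obtain ⟨u, hu, huK, huC, hud⟩ := hφ.2 (δ / 2) (half_pos hδ)
    have hwi := off_inv hwK
    refine ⟨w * u * w⁻¹, isHam_mul (isHam_mul hw hu) (isHam_inv hw), fun x hx => ?_, ?_,
      fun x => ?_⟩
    · change w (u (w⁻¹ x)) = x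
      rw [hwi x hx, huK x hx, hwK x hx]
    · rw [hν.conj u w hu hw]; exact huC
    · change dist (w (u (w⁻¹ x))) (g (φ (g⁻¹ x))) < ε
      have h4 : dist (w⁻¹ x) (g⁻¹ x) < δ' := by
        have h5 := h3 _ _ (lt_of_lt_of_le (hwd (w⁻¹ x)) (min_le_right _ _))
        have e1 : w (w⁻¹ x) = x := w.apply_symm_apply x
        have e2 : g⁻¹ (g (w⁻¹ x)) = w⁻¹ x := g.symm_apply_apply _
        rw [e1, e2, dist_comm] at h5
        exact h5
      have h6 : dist (u (w⁻¹ x)) (φ (g⁻¹ x)) < δ := by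
        calc dist (u (w⁻¹ x)) (φ (g⁻¹ x)) ≤ dist (u (w⁻¹ x)) (φ (w⁻¹ x)) +
              dist (φ (w⁻¹ x)) (φ (g⁻¹ x)) := dist_triangle _ _ _
          _ < δ / 2 + δ / 2 := add_lt_add (hud _) (h2 _ _ h4)
          _ = δ := add_halves δ
      calc dist (w (u (w⁻¹ x))) (g (φ (g⁻¹ x))) ≤ dist (w (u (w⁻¹ x))) (g (u (w⁻¹ x))) +
            dist (g (u (w⁻¹ x))) (g (φ (g⁻¹ x))) := dist_triangle _ _ _
        _ < ε / 2 + ε / 2 := add_lt_add (lt_of_lt_of_le (hwd _) (min_le_left _ _)) (h1 _ _ h6)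
        _ = ε := add_halves ε

/-- limits of limits -/
lemma NLim_lim {ν : (E n ≃ₜ E n) → ℝ≥0∞} {K : Set (E n)} {C : ℕ} {φ : E n ≃ₜ E n}
    (hoff : ∀ x, x ∉ K → φ x = x)
    (h : ∀ ε : ℝ, 0 < ε → ∃ ψ ∈ NLim n ν K C, ∀ x, dist (ψ x) (φ x) < ε) :
    φ ∈ NLim n ν K C := by
  refine ⟨hoff, fun ε hε => ?_⟩
  obtain ⟨ψ, hψ, hψd⟩ := h (ε / 2) (half_pos hε)
  obtain ⟨u, hu, huK, huC, hud⟩ := hψ.2 (ε / 2) (half_pos hε)
  refine ⟨u, hu, huK, huC, fun x => ?_⟩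
  calc dist (u x) (φ x) ≤ dist (u x) (ψ x) + dist (ψ x) (φ x) := dist_triangle _ _ _
    _ < ε / 2 + ε / 2 := add_lt_add (hud x) (hψd x)
    _ = ε := add_halves ε

/-! ### The subgroup of elements of finite norm -/

/-- the group of uniform limits, with common compact support in the ball, of Hamiltonian
diffeomorphisms of bounded norm -/
def FN (ν : (E n ≃ₜ E n) → ℝ≥0∞) (hν : CNorm n ν) : Subgroup (G n) where
  carrier := {g | ∃ K : Set (E n), IsCompact K ∧ K ⊆ Bl n ∧ ∃ C : ℕ,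
    (g : E n ≃ₜ E n) ∈ NLim n ν K C}
  one_mem' := ⟨∅, isCompact_empty, empty_subset _, 0, NLim_one hν _ _⟩
  mul_mem' := by
    rintro a b ⟨K, hK, hKB, C, ha⟩ ⟨K', hK', hKB', C', hb⟩
    exact ⟨K ∪ K', hK.union hK', union_subset hKB hKB', C + C',
      NLim_mul hν (hK.union hK') (NLim_mono subset_union_left le_rfl ha)
        (NLim_mono subset_union_right le_rfl hb)⟩
  inv_mem' := by
    rintro a ⟨K, hK, hKB, C, ha⟩
    exact ⟨K, hK, hKB, C, NLim_inv hν hK ha⟩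

lemma mem_FN {ν : (E n ≃ₜ E n) → ℝ≥0∞} {hν : CNorm n ν} {g : G n} : g ∈ FN ν hν ↔
    ∃ K : Set (E n), IsCompact K ∧ K ⊆ Bl n ∧ ∃ C : ℕ, (g : E n ≃ₜ E n) ∈ NLim n ν K C := Iff.rfl

lemma FN_normal (ν : (E n ≃ₜ E n) → ℝ≥0∞) (hν : CNorm n ν) : (FN ν hν).Normal where
  conj_mem := by
    rintro a ⟨K, hK, hKB, C, ha⟩ g
    obtain ⟨K', hK', hKB', hg⟩ := exists_GS g.2
    exact ⟨K ∪ K', hK.union hK', union_subset hKB hKB', C,
      NLim_conj hν (hK.union hK') (NLim_mono subset_union_left le_rfl ha)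
        (GS_mono subset_union_right hg)⟩

/-! ### Baire category -/

/-- elements of `Gn n R` which are limits of bounded norm -/
def QS (ν : (E n ≃ₜ E n) → ℝ≥0∞) (R : ℝ) (m C : ℕ) : Set (G n) :=
  {g | g ∈ Gn n R ∧ (g : E n ≃ₜ E n) ∈ NLim n ν (CB n (max R (Rm m))) C}

lemma closed_QS (ν : (E n ≃ₜ E n) → ℝ≥0∞) {R : ℝ} (hR0 : 0 ≤ R) (hR1 : R < 1) (m C : ℕ) :
    IsClosed (res '' QS (n := n) ν R m C) := by
  apply isClosed_of_closure_subset
  intro p hp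
  have hp1 : p ∈ (((Gn n R).map res : Subgroup (HG (Zn n))) : Set (HG (Zn n))) := by
    refine (closed_Gn hR0 hR1).closure_subset_iff.2 ?_ hp
    rintro _ ⟨g, hg, rfl⟩
    exact ⟨g, hg.1, rfl⟩
  obtain ⟨g, hg, rfl⟩ := hp1
  refine ⟨g, ⟨hg, NLim_lim (fun x hx => Gn_off hg x fun hx' => hx
    (CB_mono hR0 (le_max_left _ _) hx')) fun ε hε => ?_⟩, rfl⟩
  have ho : IsOpen {q : HG (Zn n) | dist q.1.1 (res g).1.1 < ε} :=
    isOpen_lt ((continuous_fst.comp continuous_subtype_val).dist continuous_const)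
      continuous_const
  obtain ⟨q, hq, h, hh, rfl⟩ := mem_closure_iff.1 hp _ ho (by
    change dist (res g).1.1 (res g).1.1 < ε
    rwa [dist_self])
  refine ⟨h, hh.2, fun x => ?_⟩
  by_cases hx : x ∈ CB n 1
  · exact lt_of_le_of_lt (ContinuousMap.dist_apply_le_dist (f := (res h).1.1)
      (g := (res g).1.1) ⟨x, hx⟩) hq
  · have hx' : x ∉ Bl n := fun h => hx (Bl_sub_CB h)
    have e1 : (h : E n ≃ₜ E n) x = x := off_Bl h x hx'
    have e2 : (g : E n ≃ₜ E n) x = x := off_Bl g x hx'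
    rw [e1, e2, dist_self]
    exact hε

/-- a subgroup of countable index of elements of finite norm forces local boundedness -/
theorem bdd_of_countable (ν : (E n ≃ₜ E n) → ℝ≥0∞) (hν : CNorm n ν)
    (hc : Countable (G n ⧸ FN ν hν)) {R : ℝ} (hR0 : 0 ≤ R) (hR1 : R < 1) :
    ∃ m C : ℕ, ∃ ε > 0, ∀ g ∈ Gn n R, (∀ x : E n, dist (g • x) x < ε) →
      (g : E n ≃ₜ E n) ∈ NLim n ν (CB n (max R (Rm m))) C := by
  obtain ⟨T, hT, hTc⟩ := exists_reps hc R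
  set Hs : Subgroup (HG (Zn n)) := (Gn n R).map res with hHs
  have hHcl : IsClosed (Hs : Set (HG (Zn n))) := closed_Gn hR0 hR1
  have hHp : PolishSpace Hs := hHcl.polishSpace
  have hHb : BaireSpace Hs := by
    let _ := TopologicalSpace.upgradeIsCompletelyMetrizable Hs
    infer_instance
  have : Countable T := hT.to_subtype
  -- the closed sets
  set f : T × ℕ × ℕ → Set Hs := fun i =>
    {h : Hs | (res (i.1 : G n))⁻¹ * (h : HG (Zn n)) ∈ res '' QS ν R i.2.1 i.2.2} with hf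
  have hfc : ∀ i, IsClosed (f i) := fun i =>
    (closed_QS ν hR0 hR1 i.2.1 i.2.2).preimage
      ((continuous_const_mul _).comp continuous_subtype_val)
  have hne : Nonempty Hs := ⟨1⟩
  have hcov : ⋃ i, f i = univ := by
    rw [eq_univ_iff_forall]
    rintro ⟨_, h, hh, rfl⟩
    obtain ⟨t, htT, ht, htF⟩ := hTc h hh
    obtain ⟨K, hK, hKB, C, hC⟩ := mem_FN.1 htF
    obtain ⟨r, hr0, hr1, hKr⟩ := exists_CB hK hKB
    obtain ⟨m, hm⟩ : ∃ m : ℕ, r ≤ Rm m := by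
      obtain ⟨m, hm⟩ := exists_nat_gt (1 / (1 - r))
      refine ⟨m, ?_⟩
      have h1 : 0 < 1 - r := by linarith
      rw [div_lt_iff₀ h1] at hm
      unfold Rm
      have h2 : 1 / ((m : ℝ) + 2) ≤ 1 - r := by
        rw [div_le_iff₀ (by positivity)]
        nlinarith
      linarith
    rw [mem_iUnion]
    refine ⟨⟨⟨t, htT⟩, m, C⟩, ⟨t⁻¹ * h, ⟨mul_mem (inv_mem ht) hh, ?_⟩, ?_⟩⟩
    · refine NLim_mono (hKr.trans (CB_mono hr0.le (hm.trans (le_max_right _ _)))) le_rfl hC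
    · rw [map_mul, map_inv]
  obtain ⟨i, hi⟩ := nonempty_interior_of_iUnion_of_closed hfc hcov
  obtain ⟨h0, hh0⟩ := hi
  -- translate to the identity
  have hU : {u : Hs | h0 * u ∈ interior (f i)} ∈ 𝓝 (1 : Hs) := by
    apply (isOpen_interior.preimage (continuous_const_mul h0)).mem_nhds
    change h0 * 1 ∈ interior (f i)
    rwa [mul_one]
  obtain ⟨V, hV, hVU⟩ := mem_nhds_induced (Subtype.val : Hs → HG (Zn n)) 1 _ |>.1 hU
  obtain ⟨ε, hε, hsm⟩ := HG.small_mem_nhds hV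
  refine ⟨i.2.1, i.2.2 + i.2.2, ε, hε, fun g hg hgs => ?_⟩
  have hgV : res g ∈ V := hsm _ fun z => hgs z
  have h1 : h0 * (⟨res g, ⟨g, hg, rfl⟩⟩ : Hs) ∈ f i := interior_subset (hVU hgV)
  have h2 : h0 ∈ f i := interior_subset hh0
  obtain ⟨a, ha, hae⟩ := h1
  obtain ⟨b, hb, hbe⟩ := h2
  have e : g = b⁻¹ * a := by
    apply res_inj
    rw [map_mul, map_inv, hae, hbe]
    change res g = ((res (i.1 : G n))⁻¹ * (h0 : HG (Zn n)))⁻¹ *
      ((res (i.1 : G n))⁻¹ * ((h0 : HG (Zn n)) * res g))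
    group
  rw [e]
  have hK : IsCompact (CB n (max R (Rm i.2.1))) := isCompact_CB _
  exact NLim_mul hν hK (NLim_inv hν hK hb.2) ha.2

/-- local boundedness implies that all elements have finite norm -/
theorem top_of_bdd (ν : (E n ≃ₜ E n) → ℝ≥0∞) (hν : CNorm n ν) (h : LocBdd n ν) :
    FN ν hν = ⊤ := by
  apply top_of_small
  intro R hR0 hR1
  obtain ⟨R', hR'0, hR'1, C, ε, hε, hb⟩ := h R hR0 hR1
  refine ⟨ε / 2, half_pos hε, fun g hg hgs => ?_⟩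
  have hm : R ≤ max R R' := le_max_left _ _
  have hm' : R' ≤ max R R' := le_max_right _ _
  refine ⟨CB n (max R R'), isCompact_CB _, CB_sub (hR0.le.trans hm) (max_lt hR1 hR'1), C,
    NLim_lim (fun x hx => Gn_off hg x fun hx' => hx (CB_mono hR0.le hm hx')) fun δ hδ => ?_⟩
  obtain ⟨u, hu, huK, hud⟩ := hg.2 (min δ (ε / 2)) (lt_min hδ (half_pos hε))
  refine ⟨u, NLim_mono (CB_mono hR'0.le hm') le_rfl (hb u hu huK fun x => ?_),
    fun x => lt_of_lt_of_le (hud x) (min_le_left _ _)⟩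
  calc dist (u x) x ≤ dist (u x) ((g : E n ≃ₜ E n) x) + dist ((g : E n ≃ₜ E n) x) x :=
        dist_triangle _ _ _
    _ < ε / 2 + ε / 2 := add_lt_add (lt_of_lt_of_le (hud x) (min_le_right _ _)) (hgs x)
    _ = ε := add_halves ε

theorem locBdd_of_countable (ν : (E n ≃ₜ E n) → ℝ≥0∞) (hν : CNorm n ν)
    (hc : Countable (G n ⧸ FN ν hν)) : LocBdd n ν := by
  intro R hR0 hR1
  obtain ⟨m, C, ε, hε, h⟩ := bdd_of_countable ν hν hc hR0.le hR1
  refine ⟨max R (Rm m), lt_of_lt_of_le hR0 (le_max_left _ _), max_lt hR1 (Rm_lt m), C, ε, hε,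
    fun u hu huK hus => ?_⟩
  have hm : u ∈ HamBar n := mem_HamBar_of_isHam hu (isCompact_CB R) (CB_sub hR0.le hR1) huK
  exact h ⟨u, hm⟩ (GS_isHam hu huK) hus

/-- elements of finite norm -/
lemma isHam_FN (ν : (E n ≃ₜ E n) → ℝ≥0∞) (hν : CNorm n ν) {g : G n}
    (hg : IsHam n (g : E n ≃ₜ E n)) (h : ν g ≠ ∞) : g ∈ FN ν hν := by
  obtain ⟨K, hK, hKB, hg'⟩ := exists_GS g.2
  obtain ⟨C, hC⟩ := ENNReal.exists_nat_gt h
  exact ⟨K, hK, hKB, C, hg'.1, fun ε hε => ⟨g, hg, hg'.1, hC.le, fun x => by rwa [dist_self]⟩⟩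

end Pool.Agent.W_68f289_h51
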