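import Pool.Agent.W_68f289_h51.Norm

/-!
Conjugation invariant norms on Hamiltonian diffeomorphisms of the ball and simplicity of the group
of Hamiltonian homeomorphisms.
-/

open Pool.Agent.W_MP_68f289_gt
open scoped ENNReal

namespace Pool.Agent.W_68f289_h51

/-- Let `ν` be an extended norm, invariant under conjugation, on the group of compactly supported
Hamiltonian diffeomorphisms of the open unit ball of `ℝ^{2n}`, and let `F` be the set of all
Hamiltonian homeomorphisms of the ball which are uniform limits, with common compact support in the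
ball, of Hamiltonian diffeomorphisms of bounded norm. Then `F` is a normal subgroup of the group
`HamBar n` of Hamiltonian homeomorphisms of the ball, and the following are equivalent: `F` is the
whole group; `F` has countable index; `ν` is locally bounded up to uniform limits. They hold if
`HamBar n` is simple and some Hamiltonian diffeomorphism other than the identity has finite norm,
and also if `HamBar n` has no proper normal subgroup which contains all Hamiltonian diffeomorphisms
and `ν` is finite on all of them. -/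
theorem norm_criterion (n : ℕ) (ν : (E n ≃ₜ E n) → ℝ≥0∞) (hν : CNorm n ν) :
    ∃ F : Subgroup (G n), F.Normal ∧
      (∀ g : G n, g ∈ F ↔ ∃ K : Set (E n), IsCompact K ∧ K ⊆ Bl n ∧ ∃ C : ℕ,
        (g : E n ≃ₜ E n) ∈ NLim n ν K C) ∧
      (F = ⊤ ↔ Countable (G n ⧸ F)) ∧ (F = ⊤ ↔ LocBdd n ν) ∧
      (IsSimpleGroup (G n) → (∃ u : E n ≃ₜ E n, IsHam n u ∧ u ≠ 1 ∧ ν u ≠ ∞) → F = ⊤) ∧
      ((∀ N : Subgroup (G n), N.Normal → (∀ g : G n, IsHam n (g : E n ≃ₜ E n) → g ∈ N) → N = ⊤) →
        (∀ u : E n ≃ₜ E n, IsHam n u → ν u ≠ ∞) → F = ⊤) := by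
  have h1 : Countable (G n ⧸ FN ν hν) → LocBdd n ν := locBdd_of_countable ν hν
  have h2 : LocBdd n ν → FN ν hν = ⊤ := top_of_bdd ν hν
  have h3 : FN ν hν = ⊤ → Countable (G n ⧸ FN ν hν) := fun h => by
    rw [h]
    exact countable_top
  refine ⟨FN ν hν, FN_normal ν hν, fun g => mem_FN, ⟨h3, fun h => h2 (h1 h)⟩,
    ⟨fun h => h1 (h3 h), h2⟩, ?_, fun h hf => h _ (FN_normal ν hν) fun g hg =>
      isHam_FN ν hν hg (hf _ hg)⟩
  rintro hs ⟨u, hu, hu1, hfin⟩
  refine (hs.eq_bot_or_eq_top_of_normal _ (FN_normal ν hν)).resolve_left fun hb => hu1 ?_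
  have hm : u ∈ HamBar n := big_HamBar.ham u hu
  have h4 : (⟨u, hm⟩ : G n) ∈ FN ν hν := isHam_FN ν hν hu hfin
  rw [hb, Subgroup.mem_bot] at h4
  exact congrArg Subtype.val h4

end Pool.Agent.W_68f289_h51
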