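import Pool.Agent.W_68f289_h51.Quasi
import Pool.Agent.W_MP_68f289_gt.Extra

/-!
Perfectness of the group of Hamiltonian homeomorphisms of the ball: countable abelianisation,
local commutator width, and homogeneous quasimorphisms on the group of Hamiltonian diffeomorphisms.
-/

open Pool.Agent.W_MP_68f289_gt

namespace Pool.Agent.W_68f289_h51

/-- The group `HamBar n` of compactly supported Hamiltonian homeomorphisms of the open unit ball of
`ℝ^{2n}` is perfect if and only if its abelianisation is countable, if and only if for every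
`R < 1` there are `R' < 1`, `N` and `ε > 0` such that every limit of Hamiltonian diffeomorphisms of
the closed ball of radius `R` which moves all points by less than `ε` is a product of `N`
commutators of limits of Hamiltonian diffeomorphisms of the closed ball of radius `R'`. If it is
perfect, then for every `R < 1` there is `ε > 0` such that every homogeneous quasimorphism on the
group of Hamiltonian diffeomorphisms of the open unit ball which is locally bounded for uniform
convergence vanishes on all Hamiltonian diffeomorphisms supported in the closed ball of radius `R`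
whose powers all move points by less than `ε`. If it is simple (and `n ≥ 1`), then it is perfect. -/
theorem perfect_criterion (n : ℕ) :
    (commutator (G n) = ⊤ ↔ Countable (G n ⧸ commutator (G n))) ∧
    (commutator (G n) = ⊤ ↔ ∀ R : ℝ, 0 < R → R < 1 → ∃ R' : ℝ, R' < 1 ∧ ∃ N : ℕ, ∃ ε > 0,
      ∀ g ∈ Gn n R, (∀ x : E n, dist ((g : E n ≃ₜ E n) x) x < ε) →
        ∃ l : List (G n), l.length = N ∧ (∀ a ∈ l, a ∈ ComR n R') ∧ l.prod = g) ∧
    (commutator (G n) = ⊤ → ∀ R : ℝ, 0 < R → R < 1 → ∃ ε > 0,
      ∀ μ : (E n ≃ₜ E n) → ℝ, HQM n μ → LocB n μ → ∀ u : E n ≃ₜ E n, IsHam n u →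
        (∀ x, x ∉ CB n R → u x = x) → (∀ (k : ℕ) (x : E n), dist ((u ^ k) x) x < ε) →
          μ u = 0) ∧
    (1 ≤ n → IsSimpleGroup (G n) → commutator (G n) = ⊤) := by
  have h1 : commutator (G n) = ⊤ → Countable (G n ⧸ commutator (G n)) := by
    intro h
    rw [h]
    infer_instance
  have h2 : Countable (G n ⧸ commutator (G n)) → commutator (G n) = ⊤ := by
    intro h
    rw [← closure_Com]
    exact (bdd_Com h).top
  refine ⟨⟨h1, h2⟩, ⟨fun h R hR0 hR1 => ?_, fun h => ?_⟩, fun h R hR0 hR1 => ?_, fun hn hs => ?_⟩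
  · obtain ⟨m, N, ε, hε, hw⟩ := width (h1 h) hR0.le hR1
    exact ⟨Rm m, Rm_lt m, N, ε, hε, hw⟩
  · refine top_of_small fun R hR0 hR1 => ?_
    obtain ⟨R', -, N, ε, hε, hw⟩ := h R hR0 hR1
    refine ⟨ε, hε, fun g hg hgs => ?_⟩
    obtain ⟨l, -, hl, rfl⟩ := hw g hg hgs
    refine Subgroup.list_prod_mem _ fun a ha => ?_
    obtain ⟨b, -, c, -, hbc⟩ := hl a ha
    rw [← hbc, commutator_def]
    exact Subgroup.commutator_mem_commutator (Subgroup.mem_top b) (Subgroup.mem_top c)
  · exact qm_vanish (h1 h) hR0 hR1
  · exact ((sysL hn big_HamBar).simple_iff_perfect_and_frag.1 hs).1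

end Pool.Agent.W_68f289_h51
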