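import Pool.Agent.W_68f289_h51.Width
import Pool.Agent.W_MP_68f289_gt.Extra

/-!
Homogeneous quasimorphisms on the group of Hamiltonian diffeomorphisms of the ball.
-/

open Set Metric Topology Filter commutatorElement

namespace Pool.Agent.W_68f289_h51

open Pool.Agent.W_MP_68f289_gt

variable {n : ℕ}

/-! ### Definitions -/

/-- `μ` is a homogeneous quasimorphism on the group of Hamiltonian diffeomorphisms of the ball
(its values at other homeomorphisms do not matter) -/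
structure HQM (n : ℕ) (μ : (E n ≃ₜ E n) → ℝ) : Prop where
  quasi : ∃ D : ℝ, ∀ u v, IsHam n u → IsHam n v → |μ (u * v) - μ u - μ v| ≤ D
  hom : ∀ u, IsHam n u → ∀ k : ℕ, μ (u ^ k) = k * μ u

/-- `μ` is locally bounded for uniform convergence: for every `R < 1` it is bounded on the
Hamiltonian diffeomorphisms supported in the closed ball of radius `R` which move all points by less
than some `ε > 0` -/
def LocB (n : ℕ) (μ : (E n ≃ₜ E n) → ℝ) : Prop :=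
  ∀ R : ℝ, 0 < R → R < 1 → ∃ ε > 0, ∃ C : ℝ, ∀ u : E n ≃ₜ E n, IsHam n u →
    (∀ x, x ∉ CB n R → u x = x) → (∀ x, dist (u x) x < ε) → |μ u| ≤ C

/-! ### Approximation of words -/

lemma approx_mul {K : Set (E n)} (hK : IsCompact K) {φ ψ : E n ≃ₜ E n}
    (hφ : ∀ x, x ∉ K → φ x = x) {ε : ℝ} (hε : 0 < ε) :
    ∃ δ > 0, ∀ u v : E n ≃ₜ E n, (∀ x, dist (u x) (φ x) < δ) → (∀ x, dist (v x) (ψ x) < δ) →
      ∀ x, dist ((u * v) x) ((φ * ψ) x) < ε := by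
  obtain ⟨δ, hδ, h1⟩ := unif φ.continuous hK hφ (half_pos hε)
  refine ⟨min δ (ε / 2), lt_min hδ (half_pos hε), fun u v hu hv x => ?_⟩
  change dist (u (v x)) (φ (ψ x)) < ε
  calc dist (u (v x)) (φ (ψ x)) ≤ dist (u (v x)) (φ (v x)) + dist (φ (v x)) (φ (ψ x)) :=
        dist_triangle _ _ _
    _ < ε / 2 + ε / 2 := add_lt_add (lt_of_lt_of_le (hu _) (min_le_right _ _))
        (h1 _ _ (lt_of_lt_of_le (hv x) (min_le_left _ _)))
    _ = ε := add_halves ε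

lemma approx_inv {K : Set (E n)} (hK : IsCompact K) {φ : E n ≃ₜ E n}
    (hφ : ∀ x, x ∉ K → φ x = x) {ε : ℝ} (hε : 0 < ε) :
    ∃ δ > 0, ∀ u : E n ≃ₜ E n, (∀ x, dist (u x) (φ x) < δ) →
      ∀ x, dist (u⁻¹ x) (φ⁻¹ x) < ε := by
  obtain ⟨δ, hδ, h1⟩ := unif (φ⁻¹ : E n ≃ₜ E n).continuous hK (off_inv hφ) hε
  refine ⟨δ, hδ, fun u hu y => ?_⟩
  have h2 := h1 _ _ (hu (u⁻¹ y))
  have e1 : u (u⁻¹ y) = y := u.apply_symm_apply y
  have e2 : φ⁻¹ (φ (u⁻¹ y)) = u⁻¹ y := φ.symm_apply_apply _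
  rw [e1, e2, dist_comm] at h2
  exact h2

lemma off_mul {K : Set (E n)} {φ ψ : E n ≃ₜ E n} (hφ : ∀ x, x ∉ K → φ x = x)
    (hψ : ∀ x, x ∉ K → ψ x = x) : ∀ x, x ∉ K → (φ * ψ) x = x := by
  intro x hx
  change φ (ψ x) = x
  rw [hψ x hx, hφ x hx]

/-- commutators of Hamiltonian diffeomorphisms supported in `K` -/
def ComS (n : ℕ) (K : Set (E n)) : Set (E n ≃ₜ E n) :=
  {w | ∃ u v : E n ≃ₜ E n, IsHam n u ∧ IsHam n v ∧ (∀ x, x ∉ K → u x = x) ∧
    (∀ x, x ∉ K → v x = x) ∧ w = u * v * u⁻¹ * v⁻¹}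

lemma approx_com {R' : ℝ} {g : G n} (hg : g ∈ ComR n R') {ε : ℝ} (hε : 0 < ε) :
    ∃ w ∈ ComS n (CB n R'), ∀ x : E n, dist (w x) ((g : E n ≃ₜ E n) x) < ε := by
  obtain ⟨a, ha, b, hb, rfl⟩ := hg
  have hK : IsCompact (CB n R') := isCompact_CB R'
  have ha1 : ∀ x, x ∉ CB n R' → (a : E n ≃ₜ E n) x = x := ha.1
  have hb1 : ∀ x, x ∉ CB n R' → (b : E n ≃ₜ E n) x = x := hb.1
  have hai := off_inv ha1
  have hbi := off_inv hb1
  obtain ⟨δ1, hδ1, h1⟩ := approx_mul (ψ := ((b : E n ≃ₜ E n))⁻¹) hK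
    (off_mul (off_mul ha1 hb1) hai) hε
  obtain ⟨δ2, hδ2, h2⟩ := approx_mul (ψ := ((a : E n ≃ₜ E n))⁻¹) hK (off_mul ha1 hb1) hδ1
  obtain ⟨δ3, hδ3, h3⟩ := approx_mul (ψ := (b : E n ≃ₜ E n)) hK ha1 hδ2
  obtain ⟨δ4, hδ4, h4⟩ := approx_inv hK ha1 hδ2
  obtain ⟨δ5, hδ5, h5⟩ := approx_inv hK hb1 hδ1
  obtain ⟨u, hu, huK, hud⟩ := ha.2 (min δ3 δ4) (lt_min hδ3 hδ4)
  obtain ⟨v, hv, hvK, hvd⟩ := hb.2 (min δ3 δ5) (lt_min hδ3 hδ5)
  refine ⟨u * v * u⁻¹ * v⁻¹, ⟨u, v, hu, hv, huK, hvK, rfl⟩, ?_⟩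
  exact h1 _ _ (h2 _ _ (h3 _ _ (fun x => lt_of_lt_of_le (hud x) (min_le_left _ _))
    (fun x => lt_of_lt_of_le (hvd x) (min_le_left _ _)))
    (h4 _ fun x => lt_of_lt_of_le (hud x) (min_le_right _ _)))
    (h5 _ fun x => lt_of_lt_of_le (hvd x) (min_le_right _ _))

lemma ComR_off {R' : ℝ} {g : G n} (hg : g ∈ ComR n R') :
    ∀ x, x ∉ CB n R' → (g : E n ≃ₜ E n) x = x := by
  obtain ⟨a, ha, b, hb, rfl⟩ := hg
  have ha1 : ∀ x, x ∉ CB n R' → (a : E n ≃ₜ E n) x = x := ha.1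
  have hb1 : ∀ x, x ∉ CB n R' → (b : E n ≃ₜ E n) x = x := hb.1
  exact off_mul (off_mul (off_mul ha1 hb1) (off_inv ha1)) (off_inv hb1)

lemma approx_list {R' : ℝ} (l : List (G n)) (hl : ∀ a ∈ l, a ∈ ComR n R') :
    ∀ ε : ℝ, 0 < ε → ∃ l' : List (E n ≃ₜ E n), l'.length = l.length ∧
      (∀ a ∈ l', a ∈ ComS n (CB n R')) ∧
      ∀ x : E n, dist (l'.prod x) ((l.prod : G n) • x) < ε := by
  induction l with
  | nil => exact fun ε hε => ⟨[], rfl, by simp, fun x => by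
      rw [List.prod_nil, List.prod_nil, one_smul]
      change dist x x < ε
      rwa [dist_self]⟩
  | cons a l ih =>
    intro ε hε
    have ha := hl a (List.mem_cons_self ..)
    obtain ⟨δ, hδ, h1⟩ := approx_mul (ψ := ((l.prod : G n) : E n ≃ₜ E n)) (isCompact_CB R')
      (ComR_off ha) hε
    obtain ⟨w, hw, hwd⟩ := approx_com ha hδ
    obtain ⟨l', hl'1, hl'2, hl'3⟩ := ih (fun c hc => hl c (List.mem_cons_of_mem _ hc)) δ hδ
    refine ⟨w :: l', by simp [hl'1], ?_, fun x => ?_⟩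
    · intro c hc
      rw [List.mem_cons] at hc
      rcases hc with rfl | hc
      · exact hw
      · exact hl'2 c hc
    · rw [List.prod_cons, List.prod_cons]
      exact h1 w l'.prod hwd hl'3 x

/-! ### Quasimorphisms -/

lemma isHam_pow {u : E n ≃ₜ E n} (hu : IsHam n u) (k : ℕ) : IsHam n (u ^ k) := by
  induction k with
  | zero => rw [pow_zero]; exact isHam_one
  | succ k ih => rw [pow_succ]; exact isHam_mul ih hu

lemma off_pow {K : Set (E n)} {u : E n ≃ₜ E n} (hu : ∀ x, x ∉ K → u x = x) (k : ℕ) :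
    ∀ x, x ∉ K → (u ^ k) x = x := by
  induction k with
  | zero => intro x _; rw [pow_zero]; rfl
  | succ k ih => rw [pow_succ]; exact off_mul ih hu

lemma HQM.one {μ : (E n ≃ₜ E n) → ℝ} (h : HQM n μ) : μ 1 = 0 := by
  have := h.hom 1 isHam_one 0
  simpa using this

lemma HQM.inv {μ : (E n ≃ₜ E n) → ℝ} (h : HQM n μ) {u : E n ≃ₜ E n} (hu : IsHam n u) :
    μ u⁻¹ = -μ u := by
  obtain ⟨D, hD⟩ := h.quasi
  have h1 : ∀ k : ℕ, (k : ℝ) * |μ u + μ u⁻¹| ≤ D := by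
    intro k
    have h2 := hD (u ^ k) (u⁻¹ ^ k) (isHam_pow hu k) (isHam_pow (isHam_inv hu) k)
    rw [h.hom u hu k, h.hom _ (isHam_inv hu) k, inv_pow, mul_inv_cancel, h.one] at h2
    calc (k : ℝ) * |μ u + μ u⁻¹| = |(k : ℝ) * (μ u + μ u⁻¹)| := by
          rw [abs_mul, Nat.abs_cast]
      _ = |0 - k * μ u - k * μ u⁻¹| := by
          rw [← abs_neg]; congr 1; ring
      _ ≤ D := h2
  have h3 : |μ u + μ u⁻¹| = 0 := by
    by_contra hne
    have hpos : 0 < |μ u + μ u⁻¹| := lt_of_le_of_ne (abs_nonneg _) (Ne.symm hne)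
    obtain ⟨k, hk⟩ := exists_nat_gt (D / |μ u + μ u⁻¹|)
    rw [div_lt_iff₀ hpos] at hk
    exact absurd (h1 k) (not_le.2 hk)
  rw [abs_eq_zero] at h3
  linarith

lemma HQM.com {μ : (E n ≃ₜ E n) → ℝ} (h : HQM n μ) {D : ℝ}
    (hD : ∀ u v, IsHam n u → IsHam n v → |μ (u * v) - μ u - μ v| ≤ D) {K : Set (E n)}
    {w : E n ≃ₜ E n} (hw : w ∈ ComS n K) : |μ w| ≤ 3 * D := by
  obtain ⟨u, v, hu, hv, _, _, rfl⟩ := hw
  have hui := isHam_inv hu
  have hvi := isHam_inv hv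
  have h1 := abs_le.1 (hD u v hu hv)
  have h2 := abs_le.1 (hD (u * v) u⁻¹ (isHam_mul hu hv) hui)
  have h3 := abs_le.1 (hD (u * v * u⁻¹) v⁻¹ (isHam_mul (isHam_mul hu hv) hui) hvi)
  rw [h.inv hu] at h2
  rw [h.inv hv] at h3
  rw [abs_le]
  constructor <;> linarith [h1.1, h1.2, h2.1, h2.2, h3.1, h3.2]

lemma ComS_isHam {K : Set (E n)} {w : E n ≃ₜ E n} (hw : w ∈ ComS n K) : IsHam n w := by
  obtain ⟨u, v, hu, hv, _, _, rfl⟩ := hw
  exact isHam_mul (isHam_mul (isHam_mul hu hv) (isHam_inv hu)) (isHam_inv hv)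

lemma ComS_off {K : Set (E n)} {w : E n ≃ₜ E n} (hw : w ∈ ComS n K) :
    ∀ x, x ∉ K → w x = x := by
  obtain ⟨u, v, hu, hv, huK, hvK, rfl⟩ := hw
  exact off_mul (off_mul (off_mul huK hvK) (off_inv huK)) (off_inv hvK)

lemma HQM.list {μ : (E n ≃ₜ E n) → ℝ} (h : HQM n μ) {D : ℝ}
    (hD : ∀ u v, IsHam n u → IsHam n v → |μ (u * v) - μ u - μ v| ≤ D) {K : Set (E n)}
    (l : List (E n ≃ₜ E n)) (hl : ∀ a ∈ l, a ∈ ComS n K) :
    IsHam n l.prod ∧ (∀ x, x ∉ K → l.prod x = x) ∧ |μ l.prod| ≤ l.length * (4 * D) := by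
  induction l with
  | nil =>
    refine ⟨isHam_one, fun x _ => rfl, ?_⟩
    rw [List.prod_nil, h.one]
    simp
  | cons a l ih =>
    obtain ⟨h1, h2, h3⟩ := ih fun c hc => hl c (List.mem_cons_of_mem _ hc)
    have ha := hl a (List.mem_cons_self ..)
    rw [List.prod_cons]
    refine ⟨isHam_mul (ComS_isHam ha) h1, off_mul (ComS_off ha) h2, ?_⟩
    have h4 := abs_le.1 (hD a l.prod (ComS_isHam ha) h1)
    have h5 := abs_le.1 (h.com hD ha)
    have h6 := abs_le.1 h3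
    rw [List.length_cons]
    push_cast
    rw [abs_le]
    constructor <;> linarith [h4.1, h4.2, h5.1, h5.2, h6.1, h6.2]

/-- if the abelianisation of the group of Hamiltonian homeomorphisms is countable, then all locally
bounded homogeneous quasimorphisms on the group of Hamiltonian diffeomorphisms vanish on all maps
whose powers are small -/
theorem qm_vanish (hc : Countable (G n ⧸ commutator (G n))) {R : ℝ} (hR0 : 0 < R) (hR1 : R < 1) :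
    ∃ ε > 0, ∀ μ : (E n ≃ₜ E n) → ℝ, HQM n μ → LocB n μ → ∀ u : E n ≃ₜ E n, IsHam n u →
      (∀ x, x ∉ CB n R → u x = x) → (∀ (k : ℕ) (x : E n), dist ((u ^ k) x) x < ε) → μ u = 0 := by
  obtain ⟨m, N, ε, hε, hw⟩ := width hc hR0.le hR1
  refine ⟨ε, hε, fun μ hμ hμb u hu huK hus => ?_⟩
  obtain ⟨D, hD⟩ := hμ.quasi
  have hR'0 : 0 < max R (Rm m) := lt_of_lt_of_le hR0 (le_max_left _ _)
  have hR'1 : max R (Rm m) < 1 := max_lt hR1 (Rm_lt m)
  obtain ⟨η, hη, C, hC⟩ := hμb (max R (Rm m)) hR'0 hR'1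
  have hm1 : CB n R ⊆ CB n (max R (Rm m)) := CB_mono hR0.le (le_max_left _ _)
  have hm2 : CB n (Rm m) ⊆ CB n (max R (Rm m)) := CB_mono (Rm_pos m) (le_max_right _ _)
  have key : ∀ k : ℕ, (k : ℝ) * |μ u| ≤ C + N * (4 * D) + D := by
    intro k
    have hk := isHam_pow hu k
    have hkK := off_pow huK k
    have hkB : u ^ k ∈ HamBar n :=
      mem_HamBar_of_isHam hk (isCompact_CB R) (CB_sub hR0.le hR1) hkK
    obtain ⟨l, hlN, hl, hlp⟩ := hw ⟨u ^ k, hkB⟩ (GS_isHam hk hkK) (hus k)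
    obtain ⟨l', hl'N, hl', hl'd⟩ := approx_list l hl η hη
    obtain ⟨hw1, hw2, hw3⟩ := hμ.list hD l' hl'
    rw [hl'N, hlN] at hw3
    have hwi := isHam_inv hw1
    have h1 : |μ (u ^ k * l'.prod⁻¹)| ≤ C := by
      refine hC _ (isHam_mul hk hwi) (off_mul (fun x hx => hkK x fun h => hx (hm1 h))
        (off_inv fun x hx => hw2 x fun h => hx (hm2 h))) fun y => ?_
      have h2 := hl'd (l'.prod⁻¹ y)
      rw [hlp] at h2
      have e1 : l'.prod (l'.prod⁻¹ y) = y := l'.prod.apply_symm_apply y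
      rw [e1, dist_comm] at h2
      exact h2
    have h3 := abs_le.1 (hD (u ^ k * l'.prod⁻¹) l'.prod (isHam_mul hk hwi) hw1)
    rw [inv_mul_cancel_right, hμ.hom u hu k] at h3
    have h4 := abs_le.1 h1
    have h5 := abs_le.1 hw3
    have e : (k : ℝ) * |μ u| = |k * μ u| := by rw [abs_mul, Nat.abs_cast]
    rw [e, abs_le]
    constructor <;> linarith [h3.1, h3.2, h4.1, h4.2, h5.1, h5.2]
  by_contra hne
  have hpos : 0 < |μ u| := abs_pos.2 hne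
  obtain ⟨k, hk⟩ := exists_nat_gt ((C + N * (4 * D) + D) / |μ u|)
  rw [div_lt_iff₀ hpos] at hk
  exact absurd (key k) (not_le.2 hk)

end Pool.Agent.W_68f289_h51
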