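import Pool.Agent.W_68f289_h51.Quasi

/-!
Perfectness of the group of Hamiltonian homeomorphisms of the ball and homogeneous quasimorphisms
on the group of Hamiltonian diffeomorphisms.
-/

open Pool.Agent.W_MP_68f289_gt

namespace Pool.Agent.W_68f289_h51

/-- Suppose that the group `HamBar n` of compactly supported Hamiltonian homeomorphisms of the open
unit ball of `ℝ^{2n}` has countable abelianisation (for instance, that it is perfect). Then it is
perfect; for every `R < 1` there are `R' < 1`, `N` and `ε > 0` such that every limit of Hamiltonian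
diffeomorphisms of the closed ball of radius `R` which moves all points by less than `ε` is
a product of `N` commutators of limits of Hamiltonian diffeomorphisms of the closed ball of radius
`R'`; and such that every homogeneous quasimorphism on the group of Hamiltonian diffeomorphisms
of the open unit ball which is locally bounded for uniform convergence vanishes on all
Hamiltonian diffeomorphisms supported in the closed ball of radius `R` whose powers all move points
by less than `ε`. -/
theorem quasi_criterion (n : ℕ) (hc : Countable (G n ⧸ commutator (G n))) :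
    commutator (G n) = ⊤ ∧
    ∀ R : ℝ, 0 < R → R < 1 → ∃ R' : ℝ, 0 < R' ∧ R' < 1 ∧ ∃ N : ℕ, ∃ ε > 0,
      (∀ g ∈ Gn n R, (∀ x : E n, dist ((g : E n ≃ₜ E n) x) x < ε) →
        ∃ l : List (G n), l.length = N ∧ (∀ a ∈ l, a ∈ ComR n R') ∧ l.prod = g) ∧
      ∀ μ : (E n ≃ₜ E n) → ℝ, HQM n μ → LocB n μ → ∀ u : E n ≃ₜ E n, IsHam n u →
        (∀ x, x ∉ CB n R → u x = x) → (∀ (k : ℕ) (x : E n), dist ((u ^ k) x) x < ε) → μ u = 0 := by
  refine ⟨by rw [← closure_Com]; exact (bdd_Com hc).top, fun R hR0 hR1 => ?_⟩
  obtain ⟨m, N, ε, hε, hw⟩ := width hc hR0.le hR1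
  obtain ⟨ε', hε', hq⟩ := qm_vanish hc hR0 hR1
  refine ⟨max R (Rm m), lt_of_lt_of_le hR0 (le_max_left _ _), max_lt hR1 (Rm_lt m), N,
    min ε ε', lt_min hε hε', fun g hg hgs => ?_, fun μ hμ hb u hu huK hus => ?_⟩
  · obtain ⟨l, h1, h2, h3⟩ := hw g hg fun x => lt_of_lt_of_le (hgs x) (min_le_left _ _)
    exact ⟨l, h1, fun a ha => ComR_mono (Rm_pos m) (le_max_right _ _) (h2 a ha), h3⟩
  · exact hq μ hμ hb u hu huK fun k x => lt_of_lt_of_le (hus k x) (min_le_right _ _)

end Pool.Agent.W_68f289_h51
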