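import Pool.Agent.W_MP_68f289_gt.Crit

/-!
Bounded width near the identity with control of the supports: a Baire category argument for
countable families of continuous images of Polish spaces.
-/

open Set Metric Topology Filter commutatorElement

namespace Pool.Agent.W_68f289_h51

open Pool.Agent.W_MP_68f289_gt

variable {n : ℕ}

/-! ### The Baire category argument -/

/-- Let `H` be a closed subgroup of a Polish group `Γ` which is covered by countably many
translates of countably many continuous images of Polish spaces. Then for one of these images `A` a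
neighbourhood of the identity in `H` consists of elements of `A⁻¹ A`. -/
theorem baire_fam {Γ ι : Type*} [Group Γ] [TopologicalSpace Γ] [IsTopologicalGroup Γ]
    [PolishSpace Γ] [Countable ι] {P : ι → Type*} [∀ i, TopologicalSpace (P i)]
    [∀ i, PolishSpace (P i)] {s : (i : ι) → P i → Γ} (hs : ∀ i, Continuous (s i))
    (H : Subgroup Γ) (hH : IsClosed (H : Set Γ)) (T : Set Γ) (hT : T.Countable)
    (hcov : ∀ h ∈ H, ∃ t ∈ T, ∃ i, ∃ p : P i, t⁻¹ * h = s i p) :
    ∃ i, ∃ U ∈ 𝓝 (1 : Γ), ∀ u ∈ U, u ∈ H → ∃ p q : P i, u = (s i p)⁻¹ * s i q := by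
  have hHp : PolishSpace H := hH.polishSpace
  have hHb : BaireSpace H := by
    let _ := TopologicalSpace.upgradeIsCompletelyMetrizable H
    infer_instance
  have hTc : Countable T := hT.to_subtype
  set A : T × ι → Set H := fun j => {h : H | ∃ p : P j.2, (h : Γ) = (j.1 : Γ) * s j.2 p} with hA
  have hex : ∃ j, ¬ IsMeagre (A j) := by
    by_contra hcon
    push Not at hcon
    have h1 : IsMeagre (⋃ j, A j) := isMeagre_iUnion hcon
    have h2 : (⋃ j, A j) = univ := by
      rw [eq_univ_iff_forall]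
      intro h
      obtain ⟨t, ht, i, p, hp⟩ := hcov h h.2
      rw [mem_iUnion]
      exact ⟨(⟨t, ht⟩, i), p, by rw [← hp, mul_inv_cancel_left]⟩
    rw [h2] at h1
    have : (∅ : Set H).Nonempty := by
      have h5 : Dense (univ : Set H)ᶜ := dense_of_mem_residual h1
      rw [compl_univ] at h5
      exact h5.nonempty
    exact this.ne_empty rfl
  obtain ⟨⟨t, i⟩, hj⟩ := hex
  set Q : Set (P i) := {p | (t : Γ) * s i p ∈ H} with hQ
  have hQc : IsClosed Q := hH.preimage (continuous_const.mul (hs i))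
  have hQp : PolishSpace Q := hQc.polishSpace
  set f : Q → H := fun p => (⟨(t : Γ) * s i p.1, p.2⟩ : H)⁻¹ with hf
  have hfc : Continuous f :=
    (((continuous_const.mul ((hs i).comp continuous_subtype_val)).subtype_mk _)).inv
  have hfr : range f = (fun h : H => h⁻¹) '' A (t, i) := by
    ext h
    constructor
    · rintro ⟨p, rfl⟩
      exact ⟨⟨(t : Γ) * s i p.1, p.2⟩, ⟨p.1, rfl⟩, rfl⟩
    · rintro ⟨h', ⟨p, hp⟩, rfl⟩
      refine ⟨⟨p, ?_⟩, ?_⟩
      · change (t : Γ) * s i p ∈ H
        rw [← hp]; exact h'.2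
      · exact congrArg (·⁻¹) (Subtype.ext hp.symm)
  obtain ⟨U, hU, hUw⟩ := pettis hfc (by
    rw [hfr]
    intro hcon
    apply hj
    have h6 : (fun h : H => h⁻¹) '' ((fun h : H => h⁻¹) '' A (t, i)) = A (t, i) := by
      rw [image_image]
      simp
    rw [← h6]
    exact (Homeomorph.inv H).isInducing.isMeagre_image hcon)
  obtain ⟨V, hV, hVU⟩ := mem_nhds_induced (Subtype.val : H → Γ) 1 U |>.1 hU
  refine ⟨i, V, hV, fun u hu huH => ?_⟩
  obtain ⟨p, q, hpq⟩ := hUw ⟨u, huH⟩ (hVU hu)
  have hpq' : u = ((t : Γ) * s i p.1)⁻¹ * (((t : Γ) * s i q.1)⁻¹)⁻¹ := congrArg Subtype.val hpq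
  refine ⟨p.1, q.1, ?_⟩
  rw [hpq']
  group

/-! ### Commutators of elements with controlled supports -/

/-- commutators of elements which are limits of Hamiltonian diffeomorphisms of the closed ball of
radius `R'` -/
def ComR (n : ℕ) (R' : ℝ) : Set (G n) :=
  {g | ∃ a ∈ Gn n R', ∃ b ∈ Gn n R', a * b * a⁻¹ * b⁻¹ = g}

lemma ComR_inv {R' : ℝ} {g : G n} (hg : g ∈ ComR n R') : g⁻¹ ∈ ComR n R' := by
  obtain ⟨a, ha, b, hb, rfl⟩ := hg
  exact ⟨b, hb, a, ha, by group⟩

lemma ComR_mono {r R' : ℝ} (hr : 0 ≤ r) (h : r ≤ R') : ComR n r ⊆ ComR n R' := by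
  rintro g ⟨a, ha, b, hb, rfl⟩
  exact ⟨a, Gn_mono hr h ha, b, Gn_mono hr h hb, rfl⟩

lemma Rm_mono : Monotone Rm := by
  intro a b h
  unfold Rm
  have h1 : (a : ℝ) ≤ b := by exact_mod_cast h
  have h2 : 1 / ((b : ℝ) + 2) ≤ 1 / ((a : ℝ) + 2) :=
    one_div_le_one_div_of_le (by positivity) (by linarith)
  linarith

/-- elements of the commutator subgroup are products of commutators of elements with a common
support -/
lemma exists_list_ComR {g : G n} (hg : g ∈ commutator (G n)) :
    ∃ m : ℕ, ∃ l : List (G n), (∀ a ∈ l, a ∈ ComR n (Rm m)) ∧ l.prod = g := by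
  rw [commutator_eq_closure] at hg
  induction hg using Subgroup.closure_induction with
  | mem g hg =>
    obtain ⟨a, b, rfl⟩ := hg
    obtain ⟨m, hm⟩ := exists_Rm a
    obtain ⟨m', hm'⟩ := exists_Rm b
    refine ⟨max m m', [⁅a, b⁆], ?_, by simp⟩
    intro c hc
    rw [List.mem_singleton] at hc
    subst hc
    exact ⟨a, Gn_mono (Rm_pos m) (Rm_mono (le_max_left _ _)) hm, b,
      Gn_mono (Rm_pos m') (Rm_mono (le_max_right _ _)) hm', rfl⟩
  | one => exact ⟨0, [], by simp, rfl⟩
  | mul g h _ _ hg hh =>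
    obtain ⟨m, l, hl, rfl⟩ := hg
    obtain ⟨m', l', hl', rfl⟩ := hh
    refine ⟨max m m', l ++ l', ?_, by rw [List.prod_append]⟩
    intro c hc
    rw [List.mem_append] at hc
    rcases hc with hc | hc
    · exact ComR_mono (Rm_pos m) (Rm_mono (le_max_left _ _)) (hl c hc)
    · exact ComR_mono (Rm_pos m') (Rm_mono (le_max_right _ _)) (hl' c hc)
  | inv g _ hg =>
    obtain ⟨m, l, hl, rfl⟩ := hg
    refine ⟨m, (l.map (·⁻¹)).reverse, ?_, by rw [List.prod_inv_reverse]⟩
    intro c hc
    rw [List.mem_reverse, List.mem_map] at hc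
    obtain ⟨a, ha, rfl⟩ := hc
    exact ComR_inv (hl a ha)

/-- the closed subgroups `Gn n (Rm m)`, in the homeomorphism group of the closed ball -/
abbrev CG (n m : ℕ) : Type := ↥((Gn n (Rm m)).map (res : G n →* HG (Zn n)))

instance instPolishCG (m : ℕ) : PolishSpace (CG n m) :=
  (closed_Gn (n := n) (Rm_pos m) (Rm_lt m)).polishSpace

/-- products of commutators -/
def comWord (i : ℕ × ℕ) (p : Fin i.1 → CG n i.2 × CG n i.2) : HG (Zn n) :=
  word (fun q : CG n i.2 × CG n i.2 => (q.1 : HG (Zn n)) * q.2 * (q.1 : HG (Zn n))⁻¹ *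
    (q.2 : HG (Zn n))⁻¹) p

lemma comWord_cont (i : ℕ × ℕ) : Continuous (comWord (n := n) i) := by
  refine word_continuous ?_ i.1
  have h1 : Continuous fun q : CG n i.2 × CG n i.2 => (q.1 : HG (Zn n)) :=
    continuous_subtype_val.comp continuous_fst
  have h2 : Continuous fun q : CG n i.2 × CG n i.2 => (q.2 : HG (Zn n)) :=
    continuous_subtype_val.comp continuous_snd
  exact ((h1.mul h2).mul h1.inv).mul h2.inv

/-- words come from products of commutators -/
lemma comWord_res (i : ℕ × ℕ) (p : Fin i.1 → CG n i.2 × CG n i.2) :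
    ∃ l : List (G n), l.length = i.1 ∧ (∀ a ∈ l, a ∈ ComR n (Rm i.2)) ∧
      res l.prod = comWord i p := by
  choose a ha hae using fun j : Fin i.1 => (p j).1.2
  choose b hb hbe using fun j : Fin i.1 => (p j).2.2
  refine ⟨(List.finRange i.1).map fun j => a j * b j * (a j)⁻¹ * (b j)⁻¹, by simp, ?_, ?_⟩
  · intro c hc
    obtain ⟨j, _, rfl⟩ := List.mem_map.1 hc
    exact ⟨a j, ha j, b j, hb j, rfl⟩
  · rw [comWord, word, map_list_prod, List.map_map]
    congr 1
    apply List.map_congr_left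
    intro j _
    simp only [Function.comp_apply, map_mul, map_inv, hae, hbe]

/-- products of commutators are words -/
lemma exists_comWord (m : ℕ) (l : List (G n)) (hl : ∀ a ∈ l, a ∈ ComR n (Rm m)) :
    ∃ p : Fin l.length → CG n m × CG n m, comWord (l.length, m) p = res l.prod := by
  choose a ha b hb hab using fun j : Fin l.length => hl (l.get j) (List.get_mem l j)
  refine ⟨fun j => (⟨res (a j), a j, ha j, rfl⟩, ⟨res (b j), b j, hb j, rfl⟩), ?_⟩
  rw [comWord, word, map_list_prod]
  congr 1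
  have h1 : l.map (res : G n →* HG (Zn n)) =
      (List.finRange l.length).map (fun j => res (l.get j)) := by
    conv_lhs => rw [← List.map_get_finRange l]
    rw [List.map_map]
    rfl
  rw [h1]
  apply List.map_congr_left
  intro j _
  simp only
  rw [← hab j, map_mul, map_mul, map_mul, map_inv, map_inv]

/-- if the abelianisation is countable, small elements are products of a bounded number of
commutators of elements with controlled supports -/
theorem width (hc : Countable (G n ⧸ commutator (G n))) {R : ℝ} (hR0 : 0 ≤ R) (hR1 : R < 1) :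
    ∃ m N : ℕ, ∃ ε > 0, ∀ g ∈ Gn n R, (∀ x : E n, dist (g • x) x < ε) →
      ∃ l : List (G n), l.length = N ∧ (∀ a ∈ l, a ∈ ComR n (Rm m)) ∧ l.prod = g := by
  obtain ⟨T, hT, hTc⟩ := exists_reps hc R
  obtain ⟨i, U, hU, hw⟩ := baire_fam (s := comWord (n := n)) comWord_cont ((Gn n R).map res)
    (closed_Gn hR0 hR1) (res '' T) (hT.image _) (by
      rintro _ ⟨h, hh, rfl⟩
      obtain ⟨t, htT, _, htc⟩ := hTc h hh
      obtain ⟨m, l, hl, hlp⟩ := exists_list_ComR htc
      obtain ⟨p, hp⟩ := exists_comWord m l hl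
      exact ⟨res t, ⟨t, htT, rfl⟩, (l.length, m), p, by rw [hp, hlp, map_mul, map_inv]⟩)
  obtain ⟨ε, hε, h1⟩ := HG.small_mem_nhds hU
  refine ⟨i.2, i.1 + i.1, ε, hε, fun g hg hgs => ?_⟩
  obtain ⟨p, q, hpq⟩ := hw (res g) (h1 _ fun z => hgs z) ⟨g, hg, rfl⟩
  obtain ⟨l, hl, hlc, hlp⟩ := comWord_res i p
  obtain ⟨l', hl', hlc', hlp'⟩ := comWord_res i q
  refine ⟨(l.map (·⁻¹)).reverse ++ l', by simp [hl, hl'], ?_, ?_⟩
  · intro c hc
    rw [List.mem_append, List.mem_reverse, List.mem_map] at hc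
    rcases hc with ⟨a, ha, rfl⟩ | hc
    · exact ComR_inv (hlc a ha)
    · exact hlc' c hc
  · apply res_inj
    rw [List.prod_append, ← List.prod_inv_reverse, map_mul, map_inv, hlp, hlp', ← hpq]

end Pool.Agent.W_68f289_h51
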